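import Pool.Agent.LTG.Defs

/-!
# The ladder on Moreau forms: inf-convolution with the new resistances, kills
-/

set_option autoImplicit false

open scoped BigOperators
open Finset Matrix

noncomputable section

namespace Pool.Agent.LTG

variable {X ep : Type*} [Fintype X] [Fintype ep] [DecidableEq X]

omit [DecidableEq X] in
/-- bilinear expansion of a symmetric form -/
lemma qd_add (E : Matrix X X ℝ) (hE : E.IsSymm) (u z : X → ℝ) :
    qd E (fun x => u x + z x) = qd E u + 2 * ∑ x, z x * (E *ᵥ u) x + qd E z := by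
  have e1 : (fun x => u x + z x) = u + z := rfl
  have h : ∑ x, u x * (E *ᵥ z) x = ∑ x, z x * (E *ᵥ u) x := by
    have : u ⬝ᵥ (E *ᵥ z) = z ⬝ᵥ (E *ᵥ u) := by
      rw [Matrix.dotProduct_mulVec, ← Matrix.mulVec_transpose, hE.eq, dotProduct_comm]
    exact this
  unfold qd
  rw [e1, Matrix.mulVec_add]
  simp only [Pi.add_apply]
  have : ∀ x, (u x + z x) * ((E *ᵥ u) x + (E *ᵥ z) x) = u x * (E *ᵥ u) x + z x * (E *ᵥ u) x +
      (u x * (E *ᵥ z) x + z x * (E *ᵥ z) x) := fun x => by ring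
  rw [Finset.sum_congr rfl fun x _ => this x, Finset.sum_add_distrib, Finset.sum_add_distrib,
    Finset.sum_add_distrib, h]
  ring

/-- the minimiser -/
def umin (E1 : Matrix X X ℝ) (τ : X → ℝ) (f : X → ℝ) (x : X) : ℝ := f x - τ x * (E1 *ᵥ f) x

lemma E_umin {E E1 : Matrix X X ℝ} {τ : X → ℝ} (h : Lad E E1 τ) (f : X → ℝ) :
    E *ᵥ (umin E1 τ f) = E1 *ᵥ f := by
  have e : umin E1 τ f = f - Matrix.diagonal τ *ᵥ (E1 *ᵥ f) := by
    funext x
    rw [Pi.sub_apply, Matrix.mulVec_diagonal]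
    rfl
  have h2 : E1 *ᵥ f + E *ᵥ (Matrix.diagonal τ *ᵥ (E1 *ᵥ f)) = E *ᵥ f := by
    conv_rhs => rw [← h.eq]
    rw [Matrix.add_mulVec, Matrix.mulVec_mulVec, Matrix.mulVec_mulVec, Matrix.mul_assoc]
  rw [e, Matrix.mulVec_sub, ← h2]
  abel

/-- the value of the ladder form -/
theorem lad_eq {E E1 : Matrix X X ℝ} {τ : X → ℝ} (h : Lad E E1 τ) (f : X → ℝ) :
    qd E1 f = qd E (umin E1 τ f) + ∑ x, (f x - umin E1 τ f x) ^ 2 / τ x := by
  have e1 : qd E (umin E1 τ f) = ∑ x, umin E1 τ f x * (E1 *ᵥ f) x := by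
    unfold qd
    rw [E_umin h]
  rw [e1, ← Finset.sum_add_distrib]
  unfold qd
  refine Finset.sum_congr rfl fun x _ => ?_
  unfold umin
  by_cases hx : τ x = 0
  · rw [hx]; simp
  · field_simp
    ring

/-- the ladder form is an inf-convolution: upper bound by every competitor -/
theorem lad_le {E E1 : Matrix X X ℝ} {τ : X → ℝ} (h : Lad E E1 τ) (f u : X → ℝ)
    (hu : ∀ x, τ x = 0 → u x = f x) :
    qd E1 f ≤ qd E u + ∑ x, (f x - u x) ^ 2 / τ x := by
  rw [lad_eq h f]
  set w := E1 *ᵥ f with hw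
  set z : X → ℝ := fun x => u x - umin E1 τ f x with hz
  have e1 : u = fun x => umin E1 τ f x + z x := by
    funext x; rw [hz]; ring
  have e2 : qd E u = qd E (umin E1 τ f) + 2 * ∑ x, z x * w x + qd E z := by
    rw [e1, qd_add E h.sym, E_umin h]
  have e3 : ∑ x, (f x - u x) ^ 2 / τ x = ∑ x, (f x - umin E1 τ f x) ^ 2 / τ x -
      2 * ∑ x, z x * w x + ∑ x, z x ^ 2 / τ x := by
    rw [Finset.mul_sum, ← Finset.sum_sub_distrib, ← Finset.sum_add_distrib]
    refine Finset.sum_congr rfl fun x _ => ?_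
    by_cases hx : τ x = 0
    · have h1 : umin E1 τ f x = f x := by unfold umin; rw [hx]; ring
      have h2 : z x = 0 := by rw [hz]; simp only [hu x hx, h1]; ring
      rw [hx, h2]; simp
    · have h1 : f x - u x = τ x * w x - z x := by
        rw [hz]; simp only [umin]; rw [hw]; ring
      have h2 : f x - umin E1 τ f x = τ x * w x := by
        simp only [umin]; rw [hw]; ring
      rw [h1, h2]
      field_simp
      ring
  have h4 : 0 ≤ ∑ x, z x ^ 2 / τ x :=
    Finset.sum_nonneg fun x _ => div_nonneg (sq_nonneg _) (h.tau x)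
  have h5 := h.psd z
  rw [e2, e3]
  linarith

/-- the ladder decreases the form -/
theorem lad_mono {E E1 : Matrix X X ℝ} {τ : X → ℝ} (h : Lad E E1 τ) (f : X → ℝ) :
    qd E1 f ≤ qd E f := by
  have := lad_le h f f (fun _ _ => rfl)
  simpa using this

/-- the ladder form is nonnegative -/
theorem lad_nonneg {E E1 : Matrix X X ℝ} {τ : X → ℝ} (h : Lad E E1 τ) (f : X → ℝ) :
    0 ≤ qd E1 f := by
  rw [lad_eq h f]
  exact add_nonneg (h.psd _) (Finset.sum_nonneg fun x _ => div_nonneg (sq_nonneg _) (h.tau x))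

/-- (LAD, lower) -/
theorem lad_lb {E E1 : Matrix X X ℝ} {τ : X → ℝ} (h : Lad E E1 τ) (s t : ep → X)
    {al : X → ℝ} {be : ep → ℝ} (ha : ∀ x, 0 ≤ al x) (hL : LB s t (qd E) al be) :
    LB s t (qd E1) (fun x => al x / (1 + al x * τ x)) be := by
  intro f
  obtain ⟨k, hk⟩ := hL (umin E1 τ f)
  refine ⟨k, ?_⟩
  rw [lad_eq h f]
  have hp : ∀ x, al x / (1 + al x * τ x) * (f x - k x) ^ 2 ≤
      al x * (umin E1 τ f x - k x) ^ 2 + (f x - umin E1 τ f x) ^ 2 / τ x := by
    intro x
    have ht := h.tau x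
    have hax := ha x
    rcases eq_or_lt_of_le ht with h0 | h0
    · have h1 : umin E1 τ f x = f x := by unfold umin; rw [← h0]; ring
      rw [h1, ← h0]; simp
    · have hd : 0 < 1 + al x * τ x := by positivity
      rw [div_mul_eq_mul_div, div_le_iff₀ hd]
      have e : (al x * (umin E1 τ f x - k x) ^ 2 + (f x - umin E1 τ f x) ^ 2 / τ x) *
          (1 + al x * τ x) - al x * (f x - k x) ^ 2 =
          ((f x - umin E1 τ f x) - al x * τ x * (umin E1 τ f x - k x)) ^ 2 / τ x := by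
        field_simp
        ring
      have h3 : 0 ≤ ((f x - umin E1 τ f x) - al x * τ x * (umin E1 τ f x - k x)) ^ 2 / τ x :=
        div_nonneg (sq_nonneg _) ht
      linarith
  unfold mor at hk ⊢
  have h4 := Finset.sum_le_sum fun x (_ : x ∈ Finset.univ) => hp x
  rw [Finset.sum_add_distrib] at h4
  linarith

/-- (LAD, upper) -/
theorem lad_ub {E E1 : Matrix X X ℝ} {τ : X → ℝ} (h : Lad E E1 τ) (s t : ep → X)
    {al : X → ℝ} {be : ep → ℝ} (ha : ∀ x, 0 ≤ al x) (hU : UB s t (qd E) al be) :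
    UB s t (qd E1) (fun x => al x / (1 + al x * τ x)) be := by
  intro f k
  set u : X → ℝ := fun x => f x - al x * τ x / (1 + al x * τ x) * (f x - k x) with hu
  have h1 := lad_le h f u (fun x hx => by rw [hu]; simp only [hx]; simp)
  have h2 := hU u k
  refine h1.trans ?_
  unfold mor at h2 ⊢
  have hp : ∀ x, al x * (u x - k x) ^ 2 + (f x - u x) ^ 2 / τ x =
      al x / (1 + al x * τ x) * (f x - k x) ^ 2 := by
    intro x
    have ht := h.tau x
    have hax := ha x
    rcases eq_or_lt_of_le ht with h0 | h0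
    · rw [hu]; simp only [← h0]; simp
    · have hd : (1 + al x * τ x) ≠ 0 := by positivity
      rw [hu]
      field_simp
      ring
  have h4 := Finset.sum_congr rfl fun x (_ : x ∈ Finset.univ) => hp x
  rw [Finset.sum_add_distrib] at h4
  linarith

/-- (KIL, lower) the kill of the site `x`: minimum over the value at `x` -/
theorem kil_lb (s t : ep → X) {Q Q' : (X → ℝ) → ℝ} {al : X → ℝ} {be : ep → ℝ} (x : X)
    (hx : 0 ≤ al x) (hL : LB s t Q al be)
    (hQ : ∀ f, ∃ f' : X → ℝ, (∀ y, y ≠ x → f' y = f y) ∧ Q f' ≤ Q' f) :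
    LB s t Q' (Function.update al x 0) be := by
  intro f
  obtain ⟨f', h1, h2⟩ := hQ f
  obtain ⟨k, hk⟩ := hL f'
  refine ⟨k, ?_⟩
  refine le_trans ?_ (hk.trans h2)
  unfold mor
  have hp : ∀ y, Function.update al x 0 y * (f y - k y) ^ 2 ≤ al y * (f' y - k y) ^ 2 := by
    intro y
    by_cases hy : y = x
    · subst hy
      rw [Function.update_self, zero_mul]
      positivity
    · rw [Function.update_of_ne hy, h1 y hy]
  have := Finset.sum_le_sum fun y (_ : y ∈ Finset.univ) => hp y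
  linarith

/-- (KIL, upper) -/
theorem kil_ub (s t : ep → X) {Q Q' : (X → ℝ) → ℝ} {al : X → ℝ} {be : ep → ℝ} (x : X)
    (hU : UB s t Q al be)
    (hQ : ∀ f f' : X → ℝ, (∀ y, y ≠ x → f' y = f y) → Q' f ≤ Q f') :
    UB s t Q' (Function.update al x 0) be := by
  intro f k
  refine (hQ f (Function.update f x (k x)) (fun y hy => Function.update_of_ne hy _ _)).trans ?_
  refine (hU _ k).trans (le_of_eq ?_)
  unfold mor
  congr 1
  refine Finset.sum_congr rfl fun y _ => ?_
  by_cases hy : y = x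
  · subst hy
    simp
  · rw [Function.update_of_ne hy, Function.update_of_ne hy]

/-- the ladder exists -/
theorem lad_exists {E : Matrix X X ℝ} {τ : X → ℝ} (hs : E.IsSymm) (hp : ∀ f, 0 ≤ qd E f)
    (hτ : ∀ x, 0 ≤ τ x) : IsUnit (1 + E * Matrix.diagonal τ) ∧
    Lad E ((1 + E * Matrix.diagonal τ)⁻¹ * E) τ := by
  have hu : IsUnit (1 + E * Matrix.diagonal τ) := by
    rw [← Matrix.mulVec_injective_iff_isUnit]
    intro v w hvw
    have hz0 : (1 + E * Matrix.diagonal τ) *ᵥ (v - w) = 0 := by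
      rw [Matrix.mulVec_sub, hvw, sub_self]
    set z := v - w with hz
    have h1 : z + E *ᵥ (Matrix.diagonal τ *ᵥ z) = 0 := by
      rw [Matrix.add_mulVec, Matrix.one_mulVec, ← Matrix.mulVec_mulVec] at hz0
      exact hz0
    have h2 : qd E (Matrix.diagonal τ *ᵥ z) = -∑ x, τ x * z x ^ 2 := by
      have h3 : E *ᵥ (Matrix.diagonal τ *ᵥ z) = -z := by
        rw [eq_neg_iff_add_eq_zero, add_comm]
        exact h1
      unfold qd
      rw [h3, ← Finset.sum_neg_distrib]
      refine Finset.sum_congr rfl fun x _ => ?_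
      rw [Matrix.mulVec_diagonal, Pi.neg_apply]
      ring
    have h3 : ∑ x, τ x * z x ^ 2 = 0 := by
      have h4 := hp (Matrix.diagonal τ *ᵥ z)
      have h5 : 0 ≤ ∑ x, τ x * z x ^ 2 :=
        Finset.sum_nonneg fun x _ => mul_nonneg (hτ x) (sq_nonneg _)
      linarith
    have h4 : Matrix.diagonal τ *ᵥ z = 0 := by
      funext x
      rw [Matrix.mulVec_diagonal, Pi.zero_apply]
      have h5 := (Finset.sum_eq_zero_iff_of_nonneg
        (fun x _ => mul_nonneg (hτ x) (sq_nonneg (z x)))).1 h3 x (Finset.mem_univ _)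
      rcases mul_eq_zero.1 h5 with h6 | h6
      · rw [h6, zero_mul]
      · rw [pow_eq_zero_iff (two_ne_zero)] at h6
        rw [h6, mul_zero]
    rw [h4, Matrix.mulVec_zero, add_zero] at h1
    rw [← sub_eq_zero]
    exact h1
  refine ⟨hu, hs, hp, hτ, ?_⟩
  have hdet : IsUnit (1 + E * Matrix.diagonal τ).det := (Matrix.isUnit_iff_isUnit_det _).1 hu
  have h1 : (1 + E * Matrix.diagonal τ) * ((1 + E * Matrix.diagonal τ)⁻¹ * E) = E := by
    rw [← Matrix.mul_assoc, Matrix.mul_nonsing_inv _ hdet, Matrix.one_mul]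
  rw [Matrix.add_mul, Matrix.one_mul] at h1
  exact h1

/-- uniqueness of the ladder form -/
theorem lad_unique {E E1 : Matrix X X ℝ} {τ : X → ℝ} (h : Lad E E1 τ) :
    E1 = (1 + E * Matrix.diagonal τ)⁻¹ * E := by
  obtain ⟨hu, -⟩ := lad_exists h.sym h.psd h.tau
  have hdet : IsUnit (1 + E * Matrix.diagonal τ).det := (Matrix.isUnit_iff_isUnit_det _).1 hu
  have h1 : (1 + E * Matrix.diagonal τ) * E1 = E := by
    rw [Matrix.add_mul, Matrix.one_mul]
    exact h.eq
  calc E1 = ((1 + E * Matrix.diagonal τ)⁻¹ * (1 + E * Matrix.diagonal τ)) * E1 := by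
        rw [Matrix.nonsing_inv_mul _ hdet, Matrix.one_mul]
    _ = (1 + E * Matrix.diagonal τ)⁻¹ * E := by rw [Matrix.mul_assoc, h1]

/-- the ladder form is symmetric -/
theorem lad_symm {E E1 : Matrix X X ℝ} {τ : X → ℝ} (h : Lad E E1 τ) : E1.IsSymm := by
  obtain ⟨hu, -⟩ := lad_exists h.sym h.psd h.tau
  have hdet : IsUnit (1 + E * Matrix.diagonal τ).det := (Matrix.isUnit_iff_isUnit_det _).1 hu
  have h1 : (1 + E * Matrix.diagonal τ) * E1 = E := by
    rw [Matrix.add_mul, Matrix.one_mul]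
    exact h.eq
  have h2 : E1ᵀ * (1 + Matrix.diagonal τ * E) = E := by
    have := congrArg Matrix.transpose h1
    rw [Matrix.transpose_mul, Matrix.transpose_add, Matrix.transpose_mul, h.sym.eq,
      Matrix.diagonal_transpose, Matrix.transpose_one] at this
    exact this
  have h3 : (1 + E * Matrix.diagonal τ) * E1ᵀ = E := by
    have hu2 : IsUnit (1 + Matrix.diagonal τ * E) := by
      have : (1 + E * Matrix.diagonal τ)ᵀ = 1 + Matrix.diagonal τ * E := by
        rw [Matrix.transpose_add, Matrix.transpose_mul, h.sym.eq,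
          Matrix.diagonal_transpose, Matrix.transpose_one]
      rw [← this, Matrix.isUnit_iff_isUnit_det, Matrix.det_transpose]
      exact hdet
    have h4 : ((1 + E * Matrix.diagonal τ) * E1ᵀ) * (1 + Matrix.diagonal τ * E) =
        E * (1 + Matrix.diagonal τ * E) := by
      rw [Matrix.mul_assoc, h2, Matrix.add_mul, Matrix.mul_add, Matrix.one_mul, Matrix.mul_one,
        Matrix.mul_assoc]
    exact hu2.mul_right_cancel h4
  have h5 : (1 + E * Matrix.diagonal τ) * E1ᵀ = (1 + E * Matrix.diagonal τ) * E1 := by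
    rw [h3, h1]
  exact hu.mul_left_cancel h5

/-- the ladder form does not see constants if the form does not -/
theorem lad_const {E E1 : Matrix X X ℝ} {τ : X → ℝ} (h : Lad E E1 τ) (v : X → ℝ)
    (hv : E *ᵥ v = 0) : E1 *ᵥ v = 0 := by
  rw [lad_unique h, ← Matrix.mulVec_mulVec, hv, Matrix.mulVec_zero]

/-- the new weights in normal form, lower bound (`ε` of any sign): white weight `w`, new white
weight `w'`, resistance `1 / w' - 1 / w` -/
theorem lad_weight {w w' ε : ℝ} (hw : 0 < w) (hw' : 0 < w') (he : 0 < 1 + ε) :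
    w / (1 + ε) / (1 + w / (1 + ε) * (1 / w' - 1 / w)) = w' / (1 + ε * (w' / w)) := by
  have h1 : 1 + w / (1 + ε) * (1 / w' - 1 / w) = (w + ε * w') / ((1 + ε) * w') := by
    field_simp
    ring
  have h2 : 1 + ε * (w' / w) = (w + ε * w') / w := by
    field_simp
  rw [h1, h2]
  by_cases h3 : w + ε * w' = 0
  · rw [h3]; simp
  · field_simp

end Pool.Agent.LTG
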