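import Pool.Agent.Helper22_LTG.Tor
import Pool.Agent.Helper22_LTG.Lad

/-!
# One block update in normal form

`Fm s t A w εl εu bl bu Q`: the form `Q` lies between the Moreau forms with the node weights
`w / (1 + εl)`, `w / (1 - εu)` on the nodes `A` (`0` off `A`) and the bond weights `bl`, `bu`.
Only `εl` has to be small (at most `1/4`); `1 / (1 - εu)` may be a large constant `cu`, and `bu / bl`
may be large.
-/

set_option autoImplicit false

open scoped BigOperators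
open Finset

noncomputable section

namespace Pool.Agent.LTG

section graph

variable {X ep : Type*} [Fintype X] [DecidableEq X] [Fintype ep]

/-- lower weights -/
def wl (A : Finset X) (w ε : X → ℝ) (x : X) : ℝ := if x ∈ A then w x / (1 + ε x) else 0

/-- upper weights -/
def wu (A : Finset X) (w ε : X → ℝ) (x : X) : ℝ := if x ∈ A then w x / (1 - ε x) else 0

/-- the two sided comparison in normal form -/
structure Fm (s t : ep → X) (A : Finset X) (w εl εu : X → ℝ) (bl bu : ep → ℝ)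
    (Q : (X → ℝ) → ℝ) : Prop where
  lb : LB s t Q (wl A w εl) bl
  ub : UB s t Q (wu A w εu) bu

lemma Fm.mono {s t : ep → X} {A : Finset X} {w εl εu εl' εu' : X → ℝ} {bl bu bl' bu' : ep → ℝ}
    {Q : (X → ℝ) → ℝ} (h : Fm s t A w εl εu bl bu Q) (hw : ∀ x ∈ A, 0 ≤ w x)
    (h0 : ∀ x ∈ A, 0 ≤ εl x) (hel : ∀ x ∈ A, εl x ≤ εl' x) (heu : ∀ x ∈ A, εu x ≤ εu' x)
    (h1 : ∀ x ∈ A, εu' x < 1)
    (hl : ∀ e, bl' e ≤ bl e) (hu : ∀ e, bu e ≤ bu' e) : Fm s t A w εl' εu' bl' bu' Q := by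
  refine ⟨lb_mono s t (fun x => ?_) hl h.lb, ub_mono s t (fun x => ?_) hu h.ub⟩
  · unfold wl
    split
    · rename_i hx
      have := h0 x hx
      have := hel x hx
      have := hw x hx
      gcongr
    · exact le_rfl
  · unfold wu
    split
    · rename_i hx
      have := heu x hx
      have := h1 x hx
      have := hw x hx
      have h2 : 0 < 1 - εu' x := by linarith
      exact div_le_div_of_nonneg_left this h2 (by linarith)
    · exact le_rfl

/-- the ladder in normal form: `ε` contracts with the factor `w' / w` -/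
theorem fm_lad {s t : ep → X} {A : Finset X} {w w' εl εu τ : X → ℝ} {bl bu : ep → ℝ}
    {E E1 : Matrix X X ℝ} (h : Fm s t A w εl εu bl bu (qd E)) (hL : Lad E E1 τ)
    (hw : ∀ x ∈ A, 0 < w x) (hw' : ∀ x ∈ A, 0 < w' x)
    (h0 : ∀ x ∈ A, 0 ≤ εl x) (h1 : ∀ x ∈ A, εu x < 1)
    (hτ : ∀ x ∈ A, τ x = 1 / w' x - 1 / w x) :
    Fm s t A w' (fun x => εl x * (w' x / w x)) (fun x => εu x * (w' x / w x)) bl bu
      (qd E1) := by
  have e1 : ∀ x, wl A w εl x / (1 + wl A w εl x * τ x) =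
      wl A w' (fun x => εl x * (w' x / w x)) x := by
    intro x
    unfold wl
    by_cases hx : x ∈ A
    · rw [if_pos hx, if_pos hx, hτ x hx]
      exact lad_weight (hw x hx) (hw' x hx) (by linarith [h0 x hx])
    · rw [if_neg hx, if_neg hx]
      simp
  have e2 : ∀ x, wu A w εu x / (1 + wu A w εu x * τ x) =
      wu A w' (fun x => εu x * (w' x / w x)) x := by
    intro x
    unfold wu
    by_cases hx : x ∈ A
    · rw [if_pos hx, if_pos hx, hτ x hx]
      have := lad_weight (ε := -εu x) (hw x hx) (hw' x hx) (by linarith [h1 x hx])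
      rw [show 1 + -εu x = 1 - εu x by ring] at this
      rw [this]
      congr 1
      ring
    · rw [if_neg hx, if_neg hx]
      simp
  constructor
  · have := lad_lb hL s t (al := wl A w εl) (be := bl) (fun x => by
      unfold wl
      split
      · rename_i hx
        have := hw x hx
        have := h0 x hx
        positivity
      · exact le_rfl) h.lb
    simpa only [e1] using this
  · have := lad_ub hL s t (al := wu A w εu) (be := bu) (fun x => by
      unfold wu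
      split
      · rename_i hx
        have := hw x hx
        have := h1 x hx
        have : 0 < 1 - εu x := by linarith
        positivity
      · exact le_rfl) h.ub
    simpa only [e2] using this

/-- the error in normal form -/
theorem fm_err {s t : ep → X} {A : Finset X} {w εl εu v : X → ℝ} {bl bu dl : ep → ℝ}
    {Q Q' : (X → ℝ) → ℝ} (h : Fm s t A w εl εu bl bu Q)
    (hw : ∀ x ∈ A, 0 ≤ w x) (h0 : ∀ x ∈ A, 0 ≤ εl x) (h1 : ∀ x ∈ A, εl x ≤ 1 / 4)
    (h0u : ∀ x ∈ A, 0 ≤ εu x) (h1u : ∀ x ∈ A, εu x + 4 * v x < 1)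
    (hv0 : ∀ x ∈ A, 0 ≤ v x) (hv : ∀ x ∈ A, v x ≤ 1 / 16)
    (hE : ∀ f g, |Q' f - Q f| ≤ mor s t (fun x => if x ∈ A then v x * w x else 0) dl f g) :
    Fm s t A w (fun x => εl x + 4 * v x) (fun x => εu x + 4 * v x) (fun e => bl e - dl e)
      (fun e => bu e + dl e) Q' := by
  constructor
  · have := ler s t h.lb (Q' := Q') (al' := fun x => if x ∈ A then v x * w x else 0) (be' := dl)
      (fun f g => by linarith [abs_le.1 (hE f g)])
    refine lb_mono s t (fun x => ?_) (fun e => le_rfl) this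
    unfold wl
    by_cases hx : x ∈ A
    · rw [if_pos hx, if_pos hx, if_pos hx]
      have a1 := hw x hx
      have a2 := h0 x hx
      have a3 := h1 x hx
      have a4 := hv0 x hx
      have a5 := hv x hx
      have p1 : 0 < 1 + εl x := by linarith
      have p2 : 0 < 1 + (εl x + 4 * v x) := by linarith
      have key : 1 / (1 + (εl x + 4 * v x)) ≤ 1 / (1 + εl x) - v x := by
        have e1 : 1 / (1 + εl x) - v x - 1 / (1 + (εl x + 4 * v x)) =
            v x * (4 - (1 + εl x) * (1 + (εl x + 4 * v x))) /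
              ((1 + εl x) * (1 + (εl x + 4 * v x))) := by
          field_simp
          ring
        have e2 : 0 ≤ v x * (4 - (1 + εl x) * (1 + (εl x + 4 * v x))) /
              ((1 + εl x) * (1 + (εl x + 4 * v x))) := by
          apply div_nonneg _ (by positivity)
          apply mul_nonneg a4
          nlinarith
        linarith
      calc w x / (1 + (εl x + 4 * v x)) = w x * (1 / (1 + (εl x + 4 * v x))) := by ring
        _ ≤ w x * (1 / (1 + εl x) - v x) := mul_le_mul_of_nonneg_left key a1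
        _ = w x / (1 + εl x) - v x * w x := by ring
    · rw [if_neg hx, if_neg hx, if_neg hx]
      simp
  · have := uer s t h.ub (Q' := Q') (al' := fun x => if x ∈ A then v x * w x else 0) (be' := dl)
      (fun f g => by linarith [abs_le.1 (hE f g)])
    refine ub_mono s t (fun x => ?_) (fun e => le_rfl) this
    unfold wu
    by_cases hx : x ∈ A
    · rw [if_pos hx, if_pos hx, if_pos hx]
      have a1 := hw x hx
      have a2 := h0u x hx
      have a3 := h1u x hx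
      have a4 := hv0 x hx
      have p2 : 0 < 1 - (εu x + 4 * v x) := by linarith
      have p1 : 0 < 1 - εu x := by linarith
      have key : 1 / (1 - εu x) + v x ≤ 1 / (1 - (εu x + 4 * v x)) := by
        have e1 : 1 / (1 - (εu x + 4 * v x)) - (1 / (1 - εu x) + v x) =
            v x * (4 - (1 - εu x) * (1 - (εu x + 4 * v x))) /
              ((1 - εu x) * (1 - (εu x + 4 * v x))) := by
          field_simp
          ring
        have e2 : 0 ≤ v x * (4 - (1 - εu x) * (1 - (εu x + 4 * v x))) /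
              ((1 - εu x) * (1 - (εu x + 4 * v x))) := by
          apply div_nonneg _ (by positivity)
          apply mul_nonneg a4
          nlinarith
        linarith
      calc w x / (1 - εu x) + v x * w x = w x * (1 / (1 - εu x) + v x) := by ring
        _ ≤ w x * (1 / (1 - (εu x + 4 * v x))) := mul_le_mul_of_nonneg_left key a1
        _ = w x / (1 - (εu x + 4 * v x)) := by ring
    · rw [if_neg hx, if_neg hx, if_neg hx]
      simp

/-- (ERR, graph) the error of one block: it is `n` times the ladder form, and local up to a tail.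
`K` is the constant of local to global for the set `B`. -/
theorem errG {s t : ep → X} {A : Finset X} {B : X → Prop} [DecidablePred B]
    {w w' εl εu τ ta : X → ℝ} {bl bu tb : ep → ℝ} {b0 b1 n m K u cu : ℝ} {E E1 : Matrix X X ℝ}
    {Q' D tl : (X → ℝ) → ℝ} (h : Fm s t A w εl εu bl bu (qd E)) (hL : Lad E E1 τ)
    (hw : ∀ x ∈ A, 0 < w x) (hw' : ∀ x ∈ A, 0 < w' x ∧ w' x ≤ w x)
    (h0 : ∀ x ∈ A, 0 ≤ εl x) (h1 : ∀ x ∈ A, εl x ≤ 1 / 4)
    (h0u : ∀ x ∈ A, 0 ≤ εu x) (h1u : ∀ x ∈ A, 1 ≤ cu * (1 - εu x)) (hcu : 0 < cu)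
    (hτ : ∀ x ∈ A, τ x = 1 / w' x - 1 / w x)
    (hb0 : 0 < b0) (hbl : ∀ e, b0 ≤ bl e) (hbu : ∀ e, 0 ≤ bu e) (hbu1 : ∀ e, bu e ≤ b1)
    (hn : 0 ≤ n) (hm : 0 ≤ m) (hK : 0 ≤ K)
    (hE : ∀ f : X → ℝ, (∀ x, ¬ B x → f x = 0) → |Q' f - qd E1 f| ≤ n * qd E1 f)
    (hdec : ∀ f, Q' f - qd E1 f = D f + tl f)
    (hta : ∀ x ∈ A, 0 ≤ ta x ∧ ta x ≤ m) (htb : ∀ e, 0 ≤ tb e ∧ tb e ≤ m * b0)
    (htl : ∀ f g, |tl f| ≤ mor s t (fun x => if x ∈ A then ta x * w' x else 0) tb f g)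
    (hltg : UB s t (qd E1) (wu A w' (fun x => εu x * (w' x / w x))) bu →
      (∀ f : X → ℝ, (∀ x, ¬ B x → f x = 0) → |D f| ≤ (n + 2 * m) * qd E1 f) → ∀ f g,
        |D f| ≤ (n + 2 * m) * K * morB s t B (wu A w' (fun x => εu x * (w' x / w x))) bu f g)
    (hu : K * (n + 2 * m) * cu ≤ u) (hu2 : K * (n + 2 * m) ≤ u) (f g : X → ℝ) :
    |Q' f - qd E1 f| ≤ mor s t
      (fun x => if x ∈ A then ((if B x then u else 0) + ta x) * w' x else 0)
      (fun e => (if B (s e) ∧ B (t e) then u * b1 else 0) + tb e) f g := by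
  have hlt : ∀ x ∈ A, εu x < 1 := by
    intro x hx
    by_contra hc
    have : cu * (1 - εu x) ≤ 0 := mul_nonpos_of_nonneg_of_nonpos hcu.le (by linarith)
    linarith [h1u x hx]
  have hF1 := fm_lad h hL hw (fun x hx => (hw' x hx).1) h0 hlt hτ
  set ε1 : X → ℝ := fun x => εl x * (w' x / w x) with hε1
  set ε2 : X → ℝ := fun x => εu x * (w' x / w x) with hε2
  have hr : ∀ x ∈ A, 0 ≤ w' x / w x ∧ w' x / w x ≤ 1 := fun x hx =>
    ⟨div_nonneg (hw' x hx).1.le (hw x hx).le, (div_le_one (hw x hx)).2 (hw' x hx).2⟩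
  have h01 : ∀ x ∈ A, 0 ≤ ε1 x := fun x hx => mul_nonneg (h0 x hx) (hr x hx).1
  have h11 : ∀ x ∈ A, ε1 x ≤ 1 / 4 := fun x hx =>
    (mul_le_of_le_one_right (h0 x hx) (hr x hx).2).trans (h1 x hx)
  have h02 : ∀ x ∈ A, 0 ≤ ε2 x := fun x hx => mul_nonneg (h0u x hx) (hr x hx).1
  have h12 : ∀ x ∈ A, ε2 x ≤ εu x := fun x hx =>
    mul_le_of_le_one_right (h0u x hx) (hr x hx).2
  have hnm : 0 ≤ n + 2 * m := by linarith
  have hu0 : 0 ≤ u := le_trans (by positivity) hu2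
  have hQ0 : ∀ f, 0 ≤ qd E1 f := fun f => lad_nonneg hL f
  -- the tail relative to the ladder form
  have htl1 : ∀ f, |tl f| ≤ 2 * m * qd E1 f := by
    intro f
    obtain ⟨g, hg⟩ := hF1.lb f
    refine (htl f g).trans ?_
    have i1 : mor s t (fun x => if x ∈ A then ta x * w' x else 0) tb f g ≤
        mor s t (fun x => (2 * m) * wl A w' ε1 x) (fun e => (2 * m) * bl e) f g := by
      refine mor_mono s t (fun x => ?_) (fun e => ?_) f g
      · unfold wl
        by_cases hx : x ∈ A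
        · rw [if_pos hx, if_pos hx]
          have a1 := (hw' x hx).1
          have a2 := h01 x hx
          have a3 := h11 x hx
          have a4 := hta x hx
          have p1 : 0 < 1 + ε1 x := by linarith
          have i2 : w' x / 2 ≤ w' x / (1 + ε1 x) := by
            apply div_le_div_of_nonneg_left a1.le p1
            linarith
          calc ta x * w' x ≤ m * w' x := by gcongr; exact a4.2
            _ = (2 * m) * (w' x / 2) := by ring
            _ ≤ (2 * m) * (w' x / (1 + ε1 x)) := by gcongr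
        · rw [if_neg hx, if_neg hx, mul_zero]
      · have a1 := htb e
        have a2 := hbl e
        calc tb e ≤ m * b0 := a1.2
          _ ≤ m * bl e := by gcongr
          _ ≤ 2 * m * bl e := by
              have : 0 ≤ m * bl e := mul_nonneg hm (by linarith)
              linarith
    refine i1.trans ?_
    rw [mor_smul]
    gcongr
  have hD1 : ∀ f : X → ℝ, (∀ x, ¬ B x → f x = 0) → |D f| ≤ (n + 2 * m) * qd E1 f := by
    intro f hf0
    have e1 : D f = (Q' f - qd E1 f) - tl f := by rw [hdec f]; ring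
    calc |D f| = |(Q' f - qd E1 f) - tl f| := by rw [e1]
      _ ≤ |Q' f - qd E1 f| + |tl f| := abs_sub _ _
      _ ≤ n * qd E1 f + 2 * m * qd E1 f := add_le_add (hE f hf0) (htl1 f)
      _ = (n + 2 * m) * qd E1 f := by ring
  have hD2 := hltg hF1.ub hD1
  have i0 : |Q' f - qd E1 f| ≤ |D f| + |tl f| := by
    rw [hdec f]
    exact abs_add_le _ _
  have i1 := hD2 f g
  have i2 := htl f g
  rw [mul_comm (n + 2 * m) K] at i1
  unfold morB at i1
  rw [← mor_smul] at i1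
  have i3 := add_le_add i1 i2
  rw [← mor_add] at i3
  refine (i0.trans i3).trans (mor_mono s t (fun x => ?_) (fun e => ?_) f g)
  · unfold cutX wu
    by_cases hx : x ∈ A
    · rw [if_pos hx, if_pos hx, if_pos hx]
      have a1 := (hw' x hx).1
      have a2 := h02 x hx
      have a3 := h12 x hx
      have a4 := h1u x hx
      have a5 := hlt x hx
      by_cases hB : B x
      · rw [if_pos hB, if_pos hB, add_mul]
        have p1 : 0 < 1 - ε2 x := by linarith
        have i4 : w' x / (1 - ε2 x) ≤ cu * w' x := by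
          rw [div_le_iff₀ p1]
          have i6 : 1 ≤ cu * (1 - ε2 x) := by
            have : cu * (1 - εu x) ≤ cu * (1 - ε2 x) := by gcongr
            linarith
          nlinarith
        have i5 : K * (n + 2 * m) * (w' x / (1 - ε2 x)) ≤ u * w' x := by
          calc K * (n + 2 * m) * (w' x / (1 - ε2 x)) ≤ K * (n + 2 * m) * (cu * w' x) := by
                gcongr
            _ = K * (n + 2 * m) * cu * w' x := by ring
            _ ≤ u * w' x := by gcongr
        linarith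
      · rw [if_neg hB, if_neg hB]
        simp
    · rw [if_neg hx, if_neg hx, if_neg hx]
      simp
  · unfold cutE
    split
    · have a1 := hbu e
      have a2 := hbu1 e
      have : K * (n + 2 * m) * bu e ≤ u * b1 := by gcongr
      linarith
    · simp

/-- (FBK, graph) one block: ladder, then an error which is `n` times the ladder form, local up to
a tail. `K` is the constant of local to global for the set `B`. -/
theorem fbkG {s t : ep → X} {A : Finset X} {B : X → Prop} [DecidablePred B]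
    {w w' εl εu τ ta : X → ℝ} {bl bu tb : ep → ℝ} {b0 b1 n m K u cu : ℝ} {E E1 : Matrix X X ℝ}
    {Q' D tl : (X → ℝ) → ℝ} (h : Fm s t A w εl εu bl bu (qd E)) (hL : Lad E E1 τ)
    (hw : ∀ x ∈ A, 0 < w x) (hw' : ∀ x ∈ A, 0 < w' x ∧ w' x ≤ w x)
    (h0 : ∀ x ∈ A, 0 ≤ εl x) (h1 : ∀ x ∈ A, εl x ≤ 1 / 4)
    (h0u : ∀ x ∈ A, 0 ≤ εu x) (h1u : ∀ x ∈ A, 1 ≤ cu * (1 - εu x)) (hcu : 0 < cu)
    (hτ : ∀ x ∈ A, τ x = 1 / w' x - 1 / w x)
    (hb0 : 0 < b0) (hbl : ∀ e, b0 ≤ bl e) (hbu : ∀ e, 0 ≤ bu e) (hbu1 : ∀ e, bu e ≤ b1)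
    (hn : 0 ≤ n) (hm : 0 ≤ m) (hK : 0 ≤ K)
    (hE : ∀ f : X → ℝ, (∀ x, ¬ B x → f x = 0) → |Q' f - qd E1 f| ≤ n * qd E1 f)
    (hdec : ∀ f, Q' f - qd E1 f = D f + tl f)
    (hta : ∀ x ∈ A, 0 ≤ ta x ∧ ta x ≤ m) (htb : ∀ e, 0 ≤ tb e ∧ tb e ≤ m * b0)
    (htl : ∀ f g, |tl f| ≤ mor s t (fun x => if x ∈ A then ta x * w' x else 0) tb f g)
    (hltg : UB s t (qd E1) (wu A w' (fun x => εu x * (w' x / w x))) bu →
      (∀ f : X → ℝ, (∀ x, ¬ B x → f x = 0) → |D f| ≤ (n + 2 * m) * qd E1 f) → ∀ f g,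
        |D f| ≤ (n + 2 * m) * K * morB s t B (wu A w' (fun x => εu x * (w' x / w x))) bu f g)
    (hu : K * (n + 2 * m) * cu ≤ u) (hu2 : K * (n + 2 * m) ≤ u)
    (hv : ∀ x ∈ A, (if B x then u else 0) + ta x ≤ 1 / 16)
    (hv2 : ∀ x ∈ A, εu x + 4 * ((if B x then u else 0) + ta x) < 1) :
    Fm s t A w' (fun x => εl x * (w' x / w x) + 4 * ((if B x then u else 0) + ta x))
      (fun x => εu x * (w' x / w x) + 4 * ((if B x then u else 0) + ta x))
      (fun e => bl e - ((if B (s e) ∧ B (t e) then u * b1 else 0) + tb e))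
      (fun e => bu e + ((if B (s e) ∧ B (t e) then u * b1 else 0) + tb e)) Q' := by
  have hmain := errG h hL hw hw' h0 h1 h0u h1u hcu hτ hb0 hbl hbu hbu1 hn hm hK hE hdec hta
    htb htl hltg hu hu2
  have hu0 : 0 ≤ u := le_trans (mul_nonneg hK (by linarith)) hu2
  have hlt : ∀ x ∈ A, εu x < 1 := by
    intro x hx
    by_contra hc
    have : cu * (1 - εu x) ≤ 0 := mul_nonpos_of_nonneg_of_nonpos hcu.le (by linarith)
    linarith [h1u x hx]
  have hF1 := fm_lad h hL hw (fun x hx => (hw' x hx).1) h0 hlt hτ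
  have hr : ∀ x ∈ A, 0 ≤ w' x / w x ∧ w' x / w x ≤ 1 := fun x hx =>
    ⟨div_nonneg (hw' x hx).1.le (hw x hx).le, (div_le_one (hw x hx)).2 (hw' x hx).2⟩
  refine fm_err hF1 (fun x hx => (hw' x hx).1.le)
    (fun x hx => mul_nonneg (h0 x hx) (hr x hx).1)
    (fun x hx => (mul_le_of_le_one_right (h0 x hx) (hr x hx).2).trans (h1 x hx))
    (fun x hx => mul_nonneg (h0u x hx) (hr x hx).1)
    (fun x hx => by
      have := mul_le_of_le_one_right (h0u x hx) (hr x hx).2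
      have := hv2 x hx
      linarith) (fun x hx => ?_) hv hmain
  have := (hta x hx).1
  split <;> linarith

end graph

section torus

variable {d M : ℕ} [NeZero M] {L R : ℕ}

/-- (ERR, torus) the error of one block inside a box -/
theorem err (a : Tor d M) (hL0 : 0 < L) (hLM : L ≤ M) (hR : 0 < R)
    {A : Finset (Tor d M)} {w w' εl εu τ ta : Tor d M → ℝ} {bl bu tb : Bd d M → ℝ}
    {b0 bb b1 n m u cu : ℝ} {E E1 : Matrix (Tor d M) (Tor d M) ℝ}
    {Q' D tl : (Tor d M → ℝ) → ℝ} (h : Fm sT tT A w εl εu bl bu (qd E)) (hL : Lad E E1 τ)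
    (hw : ∀ x ∈ A, 0 < w x) (hw' : ∀ x ∈ A, 0 < w' x ∧ w' x ≤ w x)
    (h0 : ∀ x ∈ A, 0 ≤ εl x) (h1 : ∀ x ∈ A, εl x ≤ 1 / 4)
    (h0u : ∀ x ∈ A, 0 ≤ εu x) (h1u : ∀ x ∈ A, 1 ≤ cu * (1 - εu x)) (hcu : 0 < cu)
    (hτ : ∀ x ∈ A, τ x = 1 / w' x - 1 / w x)
    (hb0 : 0 < b0) (hbl : ∀ e, b0 ≤ bl e) (hbb : 0 < bb) (hbu : ∀ e, bb ≤ bu e)
    (hbu1 : ∀ e, bu e ≤ b1) (hb1 : 0 ≤ b1) (hn : 0 ≤ n) (hm : 0 ≤ m)
    (hE : ∀ f : Tor d M → ℝ, (∀ x, ¬ Box a L x → f x = 0) → |Q' f - qd E1 f| ≤ n * qd E1 f)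
    (hdec : ∀ f, Q' f - qd E1 f = D f + tl f)
    (hloc : ∀ f g : Tor d M → ℝ, ∀ c : ℝ, (∀ x, Core a L R x → f x - g x = c) → D f = D g)
    (hta : ∀ x ∈ A, 0 ≤ ta x ∧ ta x ≤ m) (htb : ∀ e, 0 ≤ tb e ∧ tb e ≤ m * b0)
    (htl : ∀ f g, |tl f| ≤ mor sT tT (fun x => if x ∈ A then ta x * w' x else 0) tb f g)
    (hu : (2 + 2 * (d : ℝ) ^ 2 * ((L : ℝ) / R) ^ 2 * (b1 / bb)) * (n + 2 * m) * cu ≤ u)
    (hu2 : (2 + 2 * (d : ℝ) ^ 2 * ((L : ℝ) / R) ^ 2 * (b1 / bb)) * (n + 2 * m) ≤ u)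
    (f g : Tor d M → ℝ) : |Q' f - qd E1 f| ≤ mor sT tT
      (fun x => if x ∈ A then ((if Box a L x then u else 0) + ta x) * w' x else 0)
      (fun e => (if Box a L (sT e) ∧ Box a L (tT e) then u * b1 else 0) + tb e) f g := by
  refine errG h hL hw hw' h0 h1 h0u h1u hcu hτ hb0 hbl (fun e => hbb.le.trans (hbu e)) hbu1 hn hm
    (K := 2 + 2 * (d : ℝ) ^ 2 * ((L : ℝ) / R) ^ 2 * (b1 / bb)) (by positivity) hE hdec hta htb
    htl ?_ hu hu2 f g
  intro hU hD f g
  refine ltgT a hL0 hLM hR hbb hb1 (fun x => ?_) (fun e _ => ⟨hbu e, hbu1 e⟩) hU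
    (by linarith) hD hloc f g
  unfold wu
  split
  · rename_i hx
    have a1 := hw x hx
    have a2 := hw' x hx
    have a3 := h0u x hx
    have a4 : εu x < 1 := by
      by_contra hc
      have : cu * (1 - εu x) ≤ 0 := mul_nonpos_of_nonneg_of_nonpos hcu.le (by linarith)
      linarith [h1u x hx]
    have r0 : 0 ≤ w' x / w x := div_nonneg a2.1.le a1.le
    have r1 : w' x / w x ≤ 1 := (div_le_one a1).2 a2.2
    have r2 : εu x * (w' x / w x) ≤ εu x := mul_le_of_le_one_right a3 r1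
    exact div_nonneg a2.1.le (by linarith)
  · exact le_rfl

/-- (ERR, whole torus) the error of one block when there is no room for a box -/
theorem err_all {A : Finset (Tor d M)} {w w' εl εu τ ta : Tor d M → ℝ} {bl bu tb : Bd d M → ℝ}
    {b0 b1 n m u cu : ℝ} {E E1 : Matrix (Tor d M) (Tor d M) ℝ}
    {Q' D tl : (Tor d M → ℝ) → ℝ} (h : Fm sT tT A w εl εu bl bu (qd E)) (hL : Lad E E1 τ)
    (hw : ∀ x ∈ A, 0 < w x) (hw' : ∀ x ∈ A, 0 < w' x ∧ w' x ≤ w x)
    (h0 : ∀ x ∈ A, 0 ≤ εl x) (h1 : ∀ x ∈ A, εl x ≤ 1 / 4)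
    (h0u : ∀ x ∈ A, 0 ≤ εu x) (h1u : ∀ x ∈ A, 1 ≤ cu * (1 - εu x)) (hcu : 0 < cu)
    (hτ : ∀ x ∈ A, τ x = 1 / w' x - 1 / w x)
    (hb0 : 0 < b0) (hbl : ∀ e, b0 ≤ bl e) (hbu : ∀ e, 0 ≤ bu e) (hbu1 : ∀ e, bu e ≤ b1)
    (hn : 0 ≤ n) (hm : 0 ≤ m)
    (hE : ∀ f, |Q' f - qd E1 f| ≤ n * qd E1 f)
    (hdec : ∀ f, Q' f - qd E1 f = D f + tl f)
    (hta : ∀ x ∈ A, 0 ≤ ta x ∧ ta x ≤ m) (htb : ∀ e, 0 ≤ tb e ∧ tb e ≤ m * b0)
    (htl : ∀ f g, |tl f| ≤ mor sT tT (fun x => if x ∈ A then ta x * w' x else 0) tb f g)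
    (hu : (n + 2 * m) * cu ≤ u) (hu2 : n + 2 * m ≤ u) (f g : Tor d M → ℝ) :
    |Q' f - qd E1 f| ≤ mor sT tT
      (fun x => if x ∈ A then (u + ta x) * w' x else 0) (fun e => u * b1 + tb e) f g := by
  have := errG (B := fun _ => True) (K := 1) h hL hw hw' h0 h1 h0u h1u hcu hτ hb0 hbl
    hbu hbu1 hn hm zero_le_one (fun f _ => hE f) hdec hta htb
    htl (fun hU hD f g => by
      rw [mul_one]
      have e1 : morB sT tT (fun _ => True) (wu A w' (fun x => εu x * (w' x / w x))) bu f g =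
          mor sT tT (wu A w' (fun x => εu x * (w' x / w x))) bu f g := by
        unfold morB
        congr 1
      rw [e1]
      exact ltg_all sT tT hU (by linarith) (fun f => hD f (fun x hx => absurd trivial hx))
        f g) (u := u) (by rw [one_mul]; exact hu) (by rw [one_mul]; exact hu2) f g
  simpa using this

/-- (FBK, torus) one block inside a box -/
theorem fbk (a : Tor d M) (hL0 : 0 < L) (hLM : L ≤ M) (hR : 0 < R)
    {A : Finset (Tor d M)} {w w' εl εu τ ta : Tor d M → ℝ} {bl bu tb : Bd d M → ℝ}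
    {b0 bb b1 n m u cu : ℝ} {E E1 : Matrix (Tor d M) (Tor d M) ℝ}
    {Q' D tl : (Tor d M → ℝ) → ℝ} (h : Fm sT tT A w εl εu bl bu (qd E)) (hL : Lad E E1 τ)
    (hw : ∀ x ∈ A, 0 < w x) (hw' : ∀ x ∈ A, 0 < w' x ∧ w' x ≤ w x)
    (h0 : ∀ x ∈ A, 0 ≤ εl x) (h1 : ∀ x ∈ A, εl x ≤ 1 / 4)
    (h0u : ∀ x ∈ A, 0 ≤ εu x) (h1u : ∀ x ∈ A, 1 ≤ cu * (1 - εu x)) (hcu : 0 < cu)
    (hτ : ∀ x ∈ A, τ x = 1 / w' x - 1 / w x)
    (hb0 : 0 < b0) (hbl : ∀ e, b0 ≤ bl e) (hbb : 0 < bb) (hbu : ∀ e, bb ≤ bu e)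
    (hbu1 : ∀ e, bu e ≤ b1) (hb1 : 0 ≤ b1) (hn : 0 ≤ n) (hm : 0 ≤ m)
    (hE : ∀ f : Tor d M → ℝ, (∀ x, ¬ Box a L x → f x = 0) → |Q' f - qd E1 f| ≤ n * qd E1 f)
    (hdec : ∀ f, Q' f - qd E1 f = D f + tl f)
    (hloc : ∀ f g : Tor d M → ℝ, ∀ c : ℝ, (∀ x, Core a L R x → f x - g x = c) → D f = D g)
    (hta : ∀ x ∈ A, 0 ≤ ta x ∧ ta x ≤ m) (htb : ∀ e, 0 ≤ tb e ∧ tb e ≤ m * b0)
    (htl : ∀ f g, |tl f| ≤ mor sT tT (fun x => if x ∈ A then ta x * w' x else 0) tb f g)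
    (hu : (2 + 2 * (d : ℝ) ^ 2 * ((L : ℝ) / R) ^ 2 * (b1 / bb)) * (n + 2 * m) * cu ≤ u)
    (hu2 : (2 + 2 * (d : ℝ) ^ 2 * ((L : ℝ) / R) ^ 2 * (b1 / bb)) * (n + 2 * m) ≤ u)
    (hv : ∀ x ∈ A, (if Box a L x then u else 0) + ta x ≤ 1 / 16)
    (hv2 : ∀ x ∈ A, εu x + 4 * ((if Box a L x then u else 0) + ta x) < 1) :
    Fm sT tT A w' (fun x => εl x * (w' x / w x) + 4 * ((if Box a L x then u else 0) + ta x))
      (fun x => εu x * (w' x / w x) + 4 * ((if Box a L x then u else 0) + ta x))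
      (fun e => bl e - ((if Box a L (sT e) ∧ Box a L (tT e) then u * b1 else 0) + tb e))
      (fun e => bu e + ((if Box a L (sT e) ∧ Box a L (tT e) then u * b1 else 0) + tb e)) Q' := by
  refine fbkG h hL hw hw' h0 h1 h0u h1u hcu hτ hb0 hbl (fun e => hbb.le.trans (hbu e)) hbu1 hn hm
    (K := 2 + 2 * (d : ℝ) ^ 2 * ((L : ℝ) / R) ^ 2 * (b1 / bb)) (by positivity) hE hdec hta htb
    htl ?_ hu hu2 hv hv2
  intro hU hD f g
  refine ltgT a hL0 hLM hR hbb hb1 (fun x => ?_) (fun e _ => ⟨hbu e, hbu1 e⟩) hU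
    (by linarith) hD hloc f g
  unfold wu
  split
  · rename_i hx
    have a1 := hw x hx
    have a2 := hw' x hx
    have a3 := h0u x hx
    have a4 : εu x < 1 := by
      by_contra hc
      have : cu * (1 - εu x) ≤ 0 := mul_nonpos_of_nonneg_of_nonpos hcu.le (by linarith)
      linarith [h1u x hx]
    have r0 : 0 ≤ w' x / w x := div_nonneg a2.1.le a1.le
    have r1 : w' x / w x ≤ 1 := (div_le_one a1).2 a2.2
    have r2 : εu x * (w' x / w x) ≤ εu x := mul_le_of_le_one_right a3 r1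
    exact div_nonneg a2.1.le (by linarith)
  · exact le_rfl

/-- (FBK, whole torus) one block when there is no room for a box: no locality is needed -/
theorem fbk_all {A : Finset (Tor d M)} {w w' εl εu τ ta : Tor d M → ℝ} {bl bu tb : Bd d M → ℝ}
    {b0 b1 n m u cu : ℝ} {E E1 : Matrix (Tor d M) (Tor d M) ℝ}
    {Q' D tl : (Tor d M → ℝ) → ℝ} (h : Fm sT tT A w εl εu bl bu (qd E)) (hL : Lad E E1 τ)
    (hw : ∀ x ∈ A, 0 < w x) (hw' : ∀ x ∈ A, 0 < w' x ∧ w' x ≤ w x)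
    (h0 : ∀ x ∈ A, 0 ≤ εl x) (h1 : ∀ x ∈ A, εl x ≤ 1 / 4)
    (h0u : ∀ x ∈ A, 0 ≤ εu x) (h1u : ∀ x ∈ A, 1 ≤ cu * (1 - εu x)) (hcu : 0 < cu)
    (hτ : ∀ x ∈ A, τ x = 1 / w' x - 1 / w x)
    (hb0 : 0 < b0) (hbl : ∀ e, b0 ≤ bl e) (hbu : ∀ e, 0 ≤ bu e) (hbu1 : ∀ e, bu e ≤ b1)
    (hn : 0 ≤ n) (hm : 0 ≤ m)
    (hE : ∀ f, |Q' f - qd E1 f| ≤ n * qd E1 f)
    (hdec : ∀ f, Q' f - qd E1 f = D f + tl f)
    (hta : ∀ x ∈ A, 0 ≤ ta x ∧ ta x ≤ m) (htb : ∀ e, 0 ≤ tb e ∧ tb e ≤ m * b0)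
    (htl : ∀ f g, |tl f| ≤ mor sT tT (fun x => if x ∈ A then ta x * w' x else 0) tb f g)
    (hu : (n + 2 * m) * cu ≤ u) (hu2 : n + 2 * m ≤ u) (hv : ∀ x ∈ A, u + ta x ≤ 1 / 16)
    (hv2 : ∀ x ∈ A, εu x + 4 * (u + ta x) < 1) :
    Fm sT tT A w' (fun x => εl x * (w' x / w x) + 4 * (u + ta x))
      (fun x => εu x * (w' x / w x) + 4 * (u + ta x))
      (fun e => bl e - (u * b1 + tb e)) (fun e => bu e + (u * b1 + tb e)) Q' := by
  have := fbkG (B := fun _ => True) (K := 1) h hL hw hw' h0 h1 h0u h1u hcu hτ hb0 hbl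
    hbu hbu1 hn hm zero_le_one (fun f _ => hE f) hdec hta htb
    htl (fun hU hD f g => by
      rw [mul_one]
      have e1 : morB sT tT (fun _ => True) (wu A w' (fun x => εu x * (w' x / w x))) bu f g =
          mor sT tT (wu A w' (fun x => εu x * (w' x / w x))) bu f g := by
        unfold morB
        congr 1
      rw [e1]
      exact ltg_all sT tT hU (by linarith) (fun f => hD f (fun x hx => absurd trivial hx))
        f g) (u := u) (by rw [one_mul]; exact hu)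
      (by rw [one_mul]; exact hu2) (by simpa using hv) (by simpa using hv2)
  simpa using this

end torus

end Pool.Agent.LTG
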