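import Pool.Agent.Helper22_LTG.Poi

/-!
# Boxes of the torus: Poincaré inequality and cutoff functions
-/

set_option autoImplicit false
set_option linter.unusedSectionVars false

open scoped BigOperators
open Finset

namespace Pool.Agent.LTG

variable {d M : ℕ} [NeZero M] {L : ℕ}

/-- the site with coordinates `u` seen from `a` -/
def pt (a : Tor d M) (u : Fin d → ℕ) : Tor d M := fun i => a i + (u i : ZMod M)

lemma off_pt (a : Tor d M) (u : Fin d → ℕ) (i : Fin d) (hu : u i < M) :
    off a (pt a u) i = u i := by
  simp only [off, pt, add_sub_cancel_left]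
  rw [ZMod.val_natCast, Nat.mod_eq_of_lt hu]

lemma pt_off (a x : Tor d M) : pt a (off a x) = x := by
  funext i
  simp [off, pt]

lemma off_lt (a x : Tor d M) (i : Fin d) : off a x i < M := ZMod.val_lt _

lemma sum_box (a : Tor d M) (hL : L ≤ M) (φ : Tor d M → ℝ) :
    ∑ x, (if Box a L x then φ x else 0) = ∑ u : Fin d → Fin L, φ (pt a (co u)) := by
  rw [← Finset.sum_filter]
  symm
  refine Finset.sum_bij' (fun u _ => pt a (co u))
    (fun x hx i => ⟨off a x i, (Finset.mem_filter.mp hx).2 i⟩) ?_ ?_ ?_ ?_ ?_
  · intro u _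
    rw [Finset.mem_filter]
    refine ⟨Finset.mem_univ _, fun i => ?_⟩
    rw [off_pt a (co u) i (lt_of_lt_of_le (u i).2 hL)]
    exact (u i).2
  · intro x _
    exact Finset.mem_univ _
  · intro u _
    funext i
    apply Fin.ext
    exact off_pt a (co u) i (lt_of_lt_of_le (u i).2 hL)
  · intro x hx
    exact pt_off a x
  · intro u _
    rfl

lemma pt_add (a : Tor d M) (u : Fin d → ℕ) (k : Fin d) :
    pt a (u + Pi.single k 1) = pt a u + Pi.single k 1 := by
  funext i
  by_cases h : i = k
  · subst h; simp [pt, add_assoc]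
  · simp [pt, Pi.single_eq_of_ne h]

lemma off_single (a x : Tor d M) (k : Fin d) :
    off a (x + Pi.single k 1) k = (off a x k + 1) % M := by
  simp only [off, Pi.add_apply, Pi.single_eq_same]
  have e : x k + 1 - a k = ((x k - a k).val + 1 : ℕ) := by
    push_cast
    rw [ZMod.natCast_val, ZMod.cast_id]
    ring
  rw [e, ZMod.val_natCast]

/-- coordinates of the neighbour in the direction `k` -/
lemma off_add (a x : Tor d M) (k i : Fin d) : off a (x + Pi.single k 1) i =
    if i = k then (if off a x k + 1 < M then off a x k + 1 else 0) else off a x i := by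
  by_cases h : i = k
  · subst h
    rw [if_pos rfl, off_single]
    have hlt : off a x i < M := off_lt a x i
    by_cases h1 : off a x i + 1 < M
    · rw [if_pos h1]
      exact Nat.mod_eq_of_lt h1
    · rw [if_neg h1]
      have : off a x i + 1 = M := by omega
      rw [this, Nat.mod_self]
  · rw [if_neg h]
    simp [off, Pi.single_eq_of_ne h]

/-- the Poincaré inequality on a box of the torus -/
theorem poi (a : Tor d M) (hL : 0 < L) (hLM : L ≤ M) (h : Tor d M → ℝ) :
    ∃ c : ℝ, ∑ x, (if Box a L x then (h x - c) ^ 2 else 0) ≤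
      d * (L : ℝ) ^ 2 * bon sT tT (cutE sT tT (Box a L) (fun _ => 1)) h := by
  refine ⟨(∑ v : Fin d → Fin L, h (pt a (co v))) / (L : ℝ) ^ d, ?_⟩
  rw [sum_box a hLM]
  refine (cube_poi (fun u => h (pt a u)) hL).trans ?_
  have hle : ∑ k, enk L (fun u : Fin d → ℕ => h (pt a u)) k ≤
      bon sT tT (cutE sT tT (Box a L) (fun _ => 1)) h := by
    unfold bon
    rw [Fintype.sum_prod_type]
    refine Finset.sum_le_sum fun k _ => ?_
    have h1 : enk L (fun u : Fin d → ℕ => h (pt a u)) k = ∑ x, (if Box a L x then
        (if off a x k + 1 < L then (h (x + Pi.single k 1) - h x) ^ 2 else 0) else 0) := by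
      rw [sum_box a hLM]
      unfold enk
      refine Finset.sum_congr rfl fun u _ => ?_
      rw [off_pt a (co u) k (lt_of_lt_of_le (u k).2 hLM)]
      simp only [pt_add]
      rfl
    rw [h1]
    refine Finset.sum_le_sum fun x _ => ?_
    by_cases hb : Box a L x
    · rw [if_pos hb]
      by_cases hk : off a x k + 1 < L
      · rw [if_pos hk]
        have hb2 : Box a L (x + Pi.single k 1) := by
          intro i
          rw [off_add]
          by_cases hi : i = k
          · rw [if_pos hi]
            split
            · exact hk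
            · omega
          · rw [if_neg hi]; exact hb i
        have : cutE sT tT (Box a L) (fun _ => 1) (k, x) = 1 := by
          unfold cutE
          rw [if_pos ⟨hb, hb2⟩]
        rw [this, one_mul]
        exact le_rfl
      · rw [if_neg hk]
        unfold cutE
        split <;> positivity
    · rw [if_neg hb]
      unfold cutE
      split <;> positivity
  gcongr

/-- the profile of the cutoff function in one direction -/
def pro (L R v : ℕ) : ℕ := min R (min v (L - 1 - v))

lemma pro_le (L R v : ℕ) : pro L R v ≤ R := min_le_left _ _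

lemma pro_succ (L R v : ℕ) : |(pro L R (v + 1) : ℝ) - pro L R v| ≤ 1 := by
  have h1 : pro L R (v + 1) ≤ pro L R v + 1 := by unfold pro; omega
  have h2 : pro L R v ≤ pro L R (v + 1) + 1 := by unfold pro; omega
  rw [abs_le]
  constructor
  · have : (pro L R v : ℝ) ≤ pro L R (v + 1) + 1 := by exact_mod_cast h2
    linarith
  · have : (pro L R (v + 1) : ℝ) ≤ pro L R v + 1 := by exact_mod_cast h1
    linarith

/-- the cutoff function -/
noncomputable def chi (a : Tor d M) (L R : ℕ) (x : Tor d M) : ℝ :=
  ∏ i, ((pro L R (off a x i) : ℝ) / R)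

lemma chi_fac (L R v : ℕ) : 0 ≤ (pro L R v : ℝ) / R ∧ (pro L R v : ℝ) / R ≤ 1 := by
  constructor
  · positivity
  · have : (pro L R v : ℝ) ≤ R := by exact_mod_cast pro_le L R v
    exact div_le_one_of_le₀ this (by positivity)

lemma chi_nonneg (a : Tor d M) (L R : ℕ) (x : Tor d M) : 0 ≤ chi a L R x :=
  Finset.prod_nonneg fun _ _ => (chi_fac _ _ _).1

lemma chi_le_one (a : Tor d M) (L R : ℕ) (x : Tor d M) : chi a L R x ≤ 1 :=
  Finset.prod_le_one (fun _ _ => (chi_fac _ _ _).1) (fun _ _ => (chi_fac _ _ _).2)

lemma chi_core (a : Tor d M) {L R : ℕ} (hR : 0 < R) (x : Tor d M) (hx : Core a L R x) :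
    chi a L R x = 1 := by
  unfold chi
  apply Finset.prod_eq_one
  intro i _
  have h1 : pro L R (off a x i) = R := by
    have := hx i
    unfold pro
    omega
  rw [h1]
  have : (R : ℝ) ≠ 0 := by positivity
  field_simp

lemma chi_ne (a : Tor d M) {L R : ℕ} (x : Tor d M) (h : chi a L R x ≠ 0) (i : Fin d) :
    1 ≤ off a x i ∧ off a x i + 1 < L := by
  by_contra hc
  apply h
  unfold chi
  apply Finset.prod_eq_zero (Finset.mem_univ i)
  have : pro L R (off a x i) = 0 := by
    unfold pro
    omega
  rw [this]
  simp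

lemma chi_lip (a : Tor d M) {L R : ℕ} (hLM : L ≤ M) (k : Fin d) (x : Tor d M) :
    |chi a L R (x + Pi.single k 1) - chi a L R x| ≤ 1 / R := by
  unfold chi
  rw [← Finset.mul_prod_erase Finset.univ _ (Finset.mem_univ k),
    ← Finset.mul_prod_erase Finset.univ (fun i => (pro L R (off a x i) : ℝ) / R)
      (Finset.mem_univ k)]
  have h1 : ∏ i ∈ Finset.univ.erase k, ((pro L R (off a (x + Pi.single k 1) i) : ℝ) / R) =
      ∏ i ∈ Finset.univ.erase k, ((pro L R (off a x i) : ℝ) / R) := by
    refine Finset.prod_congr rfl fun i hi => ?_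
    rw [off_add, if_neg (Finset.ne_of_mem_erase hi)]
  rw [h1, ← sub_mul, abs_mul]
  have h2 : |∏ i ∈ Finset.univ.erase k, ((pro L R (off a x i) : ℝ) / R)| ≤ 1 := by
    rw [abs_of_nonneg (Finset.prod_nonneg fun _ _ => (chi_fac _ _ _).1)]
    exact Finset.prod_le_one (fun _ _ => (chi_fac _ _ _).1) (fun _ _ => (chi_fac _ _ _).2)
  have h3 : |(pro L R (off a (x + Pi.single k 1) k) : ℝ) / R - (pro L R (off a x k) : ℝ) / R|
      ≤ 1 / R := by
    rw [← sub_div, abs_div, Nat.abs_cast]
    gcongr
    rw [off_add, if_pos rfl]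
    split
    · exact pro_succ L R _
    · rename_i h4
      have h5 : off a x k < M := off_lt a x k
      have h6 : pro L R (off a x k) = 0 := by unfold pro; omega
      have h7 : pro L R 0 = 0 := by unfold pro; omega
      rw [h6, h7]
      simp
  calc _ ≤ 1 / (R : ℝ) * 1 := by gcongr
    _ = 1 / R := by ring

/-- bonds which are not inside the box do not see the cutoff -/
lemma chi_out (a : Tor d M) {L R : ℕ} (e : Bd d M)
    (he : ¬ (Box a L (sT e) ∧ Box a L (tT e))) :
    chi a L R (sT e) = 0 ∧ chi a L R (tT e) = 0 := by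
  obtain ⟨k, x⟩ := e
  constructor
  · by_contra hc
    apply he
    have h := chi_ne a _ hc
    simp only [sT] at h
    refine ⟨fun i => by have := (h i).2; simp only [sT]; omega, fun i => ?_⟩
    simp only [tT]
    rw [off_add]
    by_cases hi : i = k
    · subst hi
      rw [if_pos rfl]
      have := (h i).2
      split <;> omega
    · rw [if_neg hi]
      have := (h i).2
      omega
  · by_contra hc
    apply he
    have h := chi_ne a _ hc
    simp only [tT] at h
    refine ⟨fun i => ?_, fun i => by have := (h i).2; simp only [tT]; omega⟩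
    simp only [sT]
    have h1 := h i
    rw [off_add] at h1
    by_cases hi : i = k
    · subst hi
      rw [if_pos rfl] at h1
      have h5 : off a x i < M := off_lt a x i
      by_cases h6 : off a x i + 1 < M
      · rw [if_pos h6] at h1; omega
      · rw [if_neg h6] at h1; omega
    · rw [if_neg hi] at h1
      omega

end Pool.Agent.LTG
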