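import Pool.Agent.Helper22_LTG.Fbk

/-!
# One step inside a stage, relative to the start of the stage
-/

set_option autoImplicit false

open scoped BigOperators
open Finset

noncomputable section

namespace Pool.Agent.LTG

variable {X ep : Type*} [Fintype X] [DecidableEq X] [Fintype ep]

/-- ladder and error, absolute form -/
theorem fm_blk {s t : ep → X} {A : Finset X} {w w' εl εu τ v : X → ℝ} {bl bu dl : ep → ℝ}
    {E E1 : Matrix X X ℝ} {Q' : (X → ℝ) → ℝ} (h : Fm s t A w εl εu bl bu (qd E))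
    (hL : Lad E E1 τ) (hw : ∀ x ∈ A, 0 < w x) (hw' : ∀ x ∈ A, 0 < w' x ∧ w' x ≤ w x)
    (h0 : ∀ x ∈ A, 0 ≤ εl x) (h1 : ∀ x ∈ A, εl x ≤ 1 / 4)
    (h0u : ∀ x ∈ A, 0 ≤ εu x) (h1u : ∀ x ∈ A, εu x + 4 * v x < 1)
    (hτ : ∀ x ∈ A, τ x = 1 / w' x - 1 / w x)
    (hv0 : ∀ x ∈ A, 0 ≤ v x) (hv : ∀ x ∈ A, v x ≤ 1 / 16)
    (hE : ∀ f g, |Q' f - qd E1 f| ≤
      mor s t (fun x => if x ∈ A then v x * w' x else 0) dl f g) :
    Fm s t A w' (fun x => εl x * (w' x / w x) + 4 * v x)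
      (fun x => εu x * (w' x / w x) + 4 * v x) (fun e => bl e - dl e)
      (fun e => bu e + dl e) Q' := by
  have hr : ∀ x ∈ A, 0 ≤ w' x / w x ∧ w' x / w x ≤ 1 := fun x hx =>
    ⟨div_nonneg (hw' x hx).1.le (hw x hx).le, (div_le_one (hw x hx)).2 (hw' x hx).2⟩
  have hF1 := fm_lad h hL hw (fun x hx => (hw' x hx).1) h0
    (fun x hx => by linarith [h1u x hx, hv0 x hx]) hτ
  exact fm_err hF1 (fun x hx => (hw' x hx).1.le) (fun x hx => mul_nonneg (h0 x hx) (hr x hx).1)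
    (fun x hx => (mul_le_of_le_one_right (h0 x hx) (hr x hx).2).trans (h1 x hx))
    (fun x hx => mul_nonneg (h0u x hx) (hr x hx).1)
    (fun x hx => by
      have := mul_le_of_le_one_right (h0u x hx) (hr x hx).2
      linarith [h1u x hx]) hv0 hv hE

/-- (STP) one step relative to the start of the stage: `w0`, `el0`, `eu0`, `bl0`, `bu0` are the
weights at the start, `Ψ`, `Ψe` count the blocks already processed (at the sites and at the bonds),
`om`, `ome` is the contribution of the present block -/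
theorem fm_step {s t : ep → X} {A : Finset X} {w0 w w' el0 eu0 Ψ om τ : X → ℝ}
    {bl0 bu0 Ψe ome : ep → ℝ} {nn D : ℝ}
    {E E1 : Matrix X X ℝ} {Q' : (X → ℝ) → ℝ}
    (h : Fm s t A w (fun x => el0 x * (w x / w0 x) + 4 * (nn * Ψ x))
      (fun x => eu0 x * (w x / w0 x) + 4 * (nn * Ψ x))
      (fun e => bl0 e - nn * D * Ψe e) (fun e => bu0 e + nn * D * Ψe e) (qd E))
    (hL : Lad E E1 τ) (hw0 : ∀ x ∈ A, 0 < w0 x) (hw : ∀ x ∈ A, 0 < w x)
    (hw' : ∀ x ∈ A, 0 < w' x ∧ w' x ≤ w x)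
    (h0 : ∀ x ∈ A, 0 ≤ el0 x) (h0u : ∀ x ∈ A, 0 ≤ eu0 x) (hnn : 0 ≤ nn)
    (hΨ : ∀ x ∈ A, 0 ≤ Ψ x) (hom : ∀ x ∈ A, 0 ≤ om x)
    (h1 : ∀ x ∈ A, el0 x * (w x / w0 x) + 4 * (nn * Ψ x) ≤ 1 / 4)
    (h1u : ∀ x ∈ A, eu0 x * (w x / w0 x) + 4 * (nn * Ψ x) + 4 * (nn * om x) < 1)
    (hτ : ∀ x ∈ A, τ x = 1 / w' x - 1 / w x) (hv : ∀ x ∈ A, nn * om x ≤ 1 / 16)
    (hE : ∀ f g, |Q' f - qd E1 f| ≤
      mor s t (fun x => if x ∈ A then nn * om x * w' x else 0) (fun e => nn * D * ome e) f g) :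
    Fm s t A w' (fun x => el0 x * (w' x / w0 x) + 4 * (nn * (Ψ x + om x)))
      (fun x => eu0 x * (w' x / w0 x) + 4 * (nn * (Ψ x + om x)))
      (fun e => bl0 e - nn * D * (Ψe e + ome e))
      (fun e => bu0 e + nn * D * (Ψe e + ome e)) Q' := by
  have hr : ∀ x ∈ A, 0 ≤ w' x / w x ∧ w' x / w x ≤ 1 := fun x hx =>
    ⟨div_nonneg (hw' x hx).1.le (hw x hx).le, (div_le_one (hw x hx)).2 (hw' x hx).2⟩
  have hr0 : ∀ x ∈ A, 0 ≤ w x / w0 x := fun x hx => div_nonneg (hw x hx).le (hw0 x hx).le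
  have hnn1 : ∀ x ∈ A, 0 ≤ nn * Ψ x := fun x hx => mul_nonneg hnn (hΨ x hx)
  have hnn2 : ∀ x ∈ A, 0 ≤ nn * om x := fun x hx => mul_nonneg hnn (hom x hx)
  have hkey : ∀ (e0 : X → ℝ), (∀ x ∈ A, 0 ≤ e0 x) → ∀ x ∈ A,
      (e0 x * (w x / w0 x) + 4 * (nn * Ψ x)) * (w' x / w x) + 4 * (nn * om x) ≤
        e0 x * (w' x / w0 x) + 4 * (nn * (Ψ x + om x)) := by
    intro e0 he0 x hx
    have e1 : w x / w0 x * (w' x / w x) = w' x / w0 x := by
      have := (hw x hx).ne'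
      have := (hw0 x hx).ne'
      field_simp
    have e2 : 4 * (nn * Ψ x) * (w' x / w x) ≤ 4 * (nn * Ψ x) :=
      mul_le_of_le_one_right (by linarith [hnn1 x hx]) (hr x hx).2
    calc _ = e0 x * (w x / w0 x * (w' x / w x)) + 4 * (nn * Ψ x) * (w' x / w x) +
          4 * (nn * om x) := by ring
      _ ≤ e0 x * (w' x / w0 x) + 4 * (nn * Ψ x) + 4 * (nn * om x) := by
          rw [e1]; linarith
      _ = _ := by ring
  have hb := fm_blk (v := fun x => nn * om x) h hL hw hw'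
    (fun x hx => by
      have := mul_nonneg (h0 x hx) (hr0 x hx)
      linarith [hnn1 x hx]) h1
    (fun x hx => by
      have := mul_nonneg (h0u x hx) (hr0 x hx)
      linarith [hnn1 x hx]) h1u hτ hnn2 hv hE
  refine hb.mono (fun x hx => (hw' x hx).1.le) (fun x hx => ?_) (hkey el0 h0) (hkey eu0 h0u)
    (fun x hx => ?_) (fun e => le_of_eq (by ring)) (fun e => le_of_eq (by ring))
  · have a1 := mul_nonneg (h0 x hx) (hr0 x hx)
    have a2 := mul_nonneg (add_nonneg a1 (by linarith [hnn1 x hx] : 0 ≤ 4 * (nn * Ψ x)))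
      (hr x hx).1
    linarith [hnn2 x hx]
  · have a1 : w' x / w0 x ≤ w x / w0 x := by
      have := hw0 x hx
      have := (hw' x hx).2
      gcongr
    have a2 : eu0 x * (w' x / w0 x) ≤ eu0 x * (w x / w0 x) :=
      mul_le_mul_of_nonneg_left a1 (h0u x hx)
    have a3 := h1u x hx
    have a4 : 4 * (nn * (Ψ x + om x)) = 4 * (nn * Ψ x) + 4 * (nn * om x) := by ring
    linarith

end Pool.Agent.LTG
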