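import Pool.Agent.Helper89_FAR.Far3
import Pool.Agent.Helper89_LTG.Tai3
import Pool.Agent.Helper22_LTG.Stp

/-!
# FSTEP: the form part of one block update on the torus

The block `F` changes (`Upd`), `E1` is the ladder of the old form, the new form is within `n E1` of `E1`
for functions supported in the nodes of the box (`Fl.Good.frm`). Then the new form satisfies the two
sided comparison relative to the start of the stage, with the block counted in the potential.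
-/

set_option autoImplicit false

open scoped BigOperators Matrix
open Finset

noncomputable section

namespace Pool.Agent.LTG.Fst

open Pool.Agent.LTG Pool.Agent.LTG.H89 Pool.Agent.ANR Pool.Agent.ANR.H89 Pool.Agent.AFJ
  Pool.Agent.LE.QF

section gen

variable {X : Type} [Fintype X] [DecidableEq X]

theorem cd_symm {G : Matrix X X ℂ} (hG : ∀ x y, G x y = G y x) (κ : X → ℝ) (A : Finset X)
    (x y : X) : cd G κ A x y = cd G κ A y x := by
  unfold cd KK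
  rw [hG x y]
  by_cases h : x ∈ A ∧ y ∈ A
  · rw [if_pos h, if_pos h.symm]; ring
  · rw [if_neg h, if_neg (fun h' => h h'.symm)]

theorem ee_symm {G : Matrix X X ℂ} (hG : ∀ x y, G x y = G y x) (κ : X → ℝ) (A : Finset X)
    (x y : X) : EE G κ A x y = EE G κ A y x := by
  by_cases h : x = y
  · rw [h]
  · rw [ee_off _ _ _ h, ee_off _ _ _ (Ne.symm h), cd_symm hG]

theorem ee_row (G : Matrix X X ℂ) (κ : X → ℝ) (A : Finset X) (x : X) :
    ∑ y, EE G κ A x y = 0 := by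
  rw [← Finset.add_sum_erase _ _ (Finset.mem_univ x), ee_diag, ← Finset.sum_add_distrib]
  refine Finset.sum_eq_zero fun y hy => ?_
  rw [ee_off _ _ _ (Finset.ne_of_mem_erase hy).symm]
  ring

theorem ee_psd {G : Matrix X X ℂ} (hG : ∀ x y, G x y = G y x) {κ : X → ℝ} (hκ : ∀ x, 0 ≤ κ x)
    (A : Finset X) (f : X → ℝ) : 0 ≤ qd (EE G κ A) f := by
  rw [qd_lap _ (ee_symm hG κ A) (ee_row G κ A)]
  unfold lap
  refine mul_nonneg (by norm_num) (Finset.sum_nonneg fun x _ => Finset.sum_nonneg fun y _ => ?_)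
  change 0 ≤ -EE G κ A x y * (f x - f y) ^ 2
  by_cases h : x = y
  · rw [h, sub_self]; simp
  · rw [ee_off _ _ _ h, neg_neg]
    refine mul_nonneg ?_ (sq_nonneg _)
    unfold cd
    split
    · exact mul_nonneg (mul_nonneg (hκ x) (hκ y)) (sq_nonneg _)
    · exact le_rfl

/-- a symmetric matrix -/
theorem issymm {E : Matrix X X ℝ} (h : ∀ x y, E x y = E y x) : E.IsSymm :=
  Matrix.IsSymm.ext fun x y => h y x

/-- rows of the ladder -/
theorem lad_row {E E1 : Matrix X X ℝ} {τ : X → ℝ} (h : Lad E E1 τ) (hE : ∀ x, ∑ y, E x y = 0)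
    (x : X) : ∑ y, E1 x y = 0 := by
  have h1 : E *ᵥ (fun _ => (1 : ℝ)) = 0 := by
    funext y
    simp only [Matrix.mulVec, dotProduct, mul_one, Pi.zero_apply]
    exact hE y
  have h2 := congrFun (lad_const h _ h1) x
  simpa [Matrix.mulVec, dotProduct] using h2

/-- the difference of two forms -/
def dlt (E' E1 : Matrix X X ℝ) (x y : X) : ℝ := if x = y then 0 else E1 x y - E' x y

theorem qd_sub {E' E1 : Matrix X X ℝ} (hs : ∀ x y, E' x y = E' y x) (h0 : ∀ x, ∑ y, E' x y = 0)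
    (hs1 : ∀ x y, E1 x y = E1 y x) (h1 : ∀ x, ∑ y, E1 x y = 0) (f : X → ℝ) :
    qd E' f - qd E1 f = lap (dlt E' E1) f := by
  rw [qd_lap E' hs h0, qd_lap E1 hs1 h1]
  unfold lap
  rw [← mul_sub, ← Finset.sum_sub_distrib]
  congr 1
  refine Finset.sum_congr rfl fun x _ => ?_
  rw [← Finset.sum_sub_distrib]
  refine Finset.sum_congr rfl fun y _ => ?_
  unfold dlt
  by_cases h : x = y
  · rw [if_pos h, h]; simp
  · rw [if_neg h]; ring

/-- conductances which live on the nodes see only the nodes -/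
theorem lap_nodes {δ : X → X → ℝ} {A : Finset X} (hδ : ∀ x y, ¬ (x ∈ A ∧ y ∈ A) → δ x y = 0)
    {f g : X → ℝ} (h : ∀ x ∈ A, f x = g x) : lap δ f = lap δ g := by
  unfold lap
  congr 1
  refine Finset.sum_congr rfl fun x _ => Finset.sum_congr rfl fun y _ => ?_
  by_cases hxy : x ∈ A ∧ y ∈ A
  · rw [h x hxy.1, h y hxy.2]
  · rw [hδ x y hxy, zero_mul, zero_mul]

theorem qd_nodes {E : Matrix X X ℝ} (hs : ∀ x y, E x y = E y x) (h0 : ∀ x, ∑ y, E x y = 0)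
    {A : Finset X} (hA : ∀ x y, x ≠ y → ¬ (x ∈ A ∧ y ∈ A) → E x y = 0) {f g : X → ℝ}
    (h : ∀ x ∈ A, f x = g x) : qd E f = qd E g := by
  have e : ∀ u : X → ℝ, qd E u = lap (fun x y => if x = y then 0 else -E x y) u := by
    intro u
    rw [qd_lap E hs h0]
    unfold lap
    congr 1
    refine Finset.sum_congr rfl fun x _ => Finset.sum_congr rfl fun y _ => ?_
    change -E x y * (u x - u y) ^ 2 = (if x = y then 0 else -E x y) * (u x - u y) ^ 2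
    by_cases hxy : x = y
    · rw [if_pos hxy, hxy]; simp
    · rw [if_neg hxy]
  rw [e f, e g]
  refine lap_nodes (A := A) (fun x y hxy => ?_) h
  by_cases h2 : x = y
  · rw [if_pos h2]
  · rw [if_neg h2, hA x y h2 hxy, neg_zero]

end gen

section torus

variable {d M : ℕ} [NeZero M] {L R : ℕ}

/-- the constant of the tail -/
def TN (d : ℕ) (β c r r0 τs : ℝ) (nb : ℕ) : ℝ :=
  3 * ((8 + 4 * τs) * Real.exp (-(β / 2 * r))) *
    (nb * (Real.exp (β / 8 * r0) * (1 + 16 / (β * c)) ^ d))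

/-- the constant of the tail, bonds -/
def TE (d : ℕ) (β c r r0 τs K : ℝ) (nb : ℕ) : ℝ :=
  384 * ((8 + 4 * τs) * Real.exp (-(β / 2 * r))) * K ^ 2 *
    (nb * (Real.exp (β / 8 * r0) * (1 + 16 / (β * c)) ^ d)) ^ 2 / β ^ 2

/-- (FSTEP, error) -/
theorem fst_err (a : Tor d M) (hL0 : 0 < L) (hLM : L ≤ M) (hR : 0 < R)
    {H H' : Matrix (Tor d M) (Tor d M) ℝ} {κ κ' φ : Tor d M → ℝ} {F A S b : Finset (Tor d M)}
    {h₀ k₀ β τs : ℝ} (hU : Upd H H' κ κ' φ F A S h₀ k₀ β) (hFA : F ⊆ A) (hβ : 0 < β)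
    {w w' εl εu τ om : Tor d M → ℝ} {bl bu ome : Bd d M → ℝ} {b0 bb b1 n m u cu nn D : ℝ}
    {E1 : Matrix (Tor d M) (Tor d M) ℝ}
    (h : Fm sT tT A w εl εu bl bu (qd (EE (Gr H κ) κ A)))
    (hL : Lad (EE (Gr H κ) κ A) E1 τ) (hτs : ∀ x, τ x ≤ τs) (hτF : ∀ x, x ∉ F → τ x = 0)
    (hw : ∀ x ∈ A, 0 < w x) (hw' : ∀ x ∈ A, 0 < w' x ∧ w' x ≤ w x)
    (h0 : ∀ x ∈ A, 0 ≤ εl x) (h1 : ∀ x ∈ A, εl x ≤ 1 / 4)
    (h0u : ∀ x ∈ A, 0 ≤ εu x) (h1u : ∀ x ∈ A, 1 ≤ cu * (1 - εu x)) (hcu : 0 < cu)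
    (hτ : ∀ x ∈ A, τ x = 1 / w' x - 1 / w x)
    (hb0 : 0 < b0) (hbl : ∀ e, b0 ≤ bl e) (hbb : 0 < bb) (hbu : ∀ e, bb ≤ bu e)
    (hbu1 : ∀ e, bu e ≤ b1) (hb1 : 0 ≤ b1) (hn : 0 ≤ n) (hm : 0 ≤ m)
    (hfrm : ∀ f : Tor d M → ℝ, (∀ x, ¬ (x ∈ A ∧ Box a L x) → f x = 0) →
      |qd (EE (Gr H' κ') κ' A) f - qd E1 f| ≤ n * qd E1 f)
    (hFc : ∀ x ∈ F, Core a L R x) (hφ1 : ∀ e : Bd d M, |φ (tT e) - φ (sT e)| ≤ 1)
    {c r0 r K : ℝ} {D0 : ℕ} (hc : 0 < c) (hD0 : ∀ y ∈ b, ∀ z ∈ b, dT y z ≤ D0)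
    (hφc : ∀ x ∈ A, ∃ y ∈ b, c * dT x y - r0 ≤ φ x) (hK : 1 ≤ K)
    (hKr : 2 * r0 / c + D0 ≤ (K - 1 / c) * r) (hKc : 1 / c ≤ K)
    (hr : ∀ x ∈ A, ¬ Core a L R x → r ≤ φ x)
    (hta : ∀ x ∈ A, TN d β c r r0 τs b.card * Real.exp (-(β / 2 * φ x)) ≤ m * w' x)
    (htb : TE d β c r r0 τs K b.card ≤ m * b0)
    (hu : (2 + 2 * (d : ℝ) ^ 2 * ((L : ℝ) / R) ^ 2 * (b1 / bb)) * (n + 2 * m) * cu ≤ u)
    (hu2 : (2 + 2 * (d : ℝ) ^ 2 * ((L : ℝ) / R) ^ 2 * (b1 / bb)) * (n + 2 * m) ≤ u)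
    (hun : u ≤ nn / 2) (hub : u * b1 ≤ nn / 2 * D) (hD : 0 ≤ D)
    (hom0 : ∀ x, 0 ≤ om x) (home0 : ∀ e, 0 ≤ ome e)
    (homB : ∀ x, Box a L x → 1 ≤ om x)
    (homeB : ∀ e : Bd d M, Box a L (sT e) → Box a L (tT e) → 1 ≤ ome e)
    (hom : ∀ x ∈ A, TN d β c r r0 τs b.card * Real.exp (-(β / 2 * φ x)) ≤ nn / 2 * om x * w' x)
    (home : ∀ e : Bd d M, TE d β c r r0 τs K b.card * Real.exp (-(β / (4 * K) * φ (sT e))) ≤
      nn / 2 * D * ome e)
    (f g : Tor d M → ℝ) :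
    |qd (EE (Gr H' κ') κ' A) f - qd E1 f| ≤ mor sT tT
      (fun x => if x ∈ A then nn * om x * w' x else 0) (fun e => nn * D * ome e) f g := by
  have hsG : ∀ x y, Gr H κ x y = Gr H κ y x := (hGeq _ H κ hU.n).2.1
  have hsG' : ∀ x y, Gr H' κ' x y = Gr H' κ' y x := (hGeq _ H' κ' hU.n').2.1
  have hs' := ee_symm hsG' κ' A
  have hr' := ee_row (Gr H' κ') κ' A
  have hs1 : ∀ x y, E1 x y = E1 y x := fun x y => (lad_symm hL).apply y x
  have hr1 := lad_row hL (ee_row (Gr H κ) κ A)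
  have hτb : ∀ x, 0 ≤ τ x ∧ τ x ≤ τs := fun x => ⟨hL.tau x, hτs x⟩
  have hτs0 : 0 ≤ τs := (hτb 0).1.trans (hτb 0).2
  -- the pairs outside of the nodes
  have hoff1 : ∀ x y, x ≠ y → ¬ (x ∈ A ∧ y ∈ A) → E1 x y = 0 := by
    intro x y hne hA
    have h2 : ¬ (x ∈ F ∧ y ∈ F) := fun hF => hA ⟨hFA hF.1, hFA hF.2⟩
    have h3 := hU.ee_tail hτb hτF hL hne h2
    rw [if_neg hA, ee_off _ _ _ hne] at h3
    have h4 : cd (Gr H' κ') κ' A x y = 0 := by unfold cd; rw [if_neg hA]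
    rw [h4, neg_zero, zero_sub, abs_neg] at h3
    exact abs_eq_zero.1 (le_antisymm h3 (abs_nonneg _))
  have hoff' : ∀ x y, x ≠ y → ¬ (x ∈ A ∧ y ∈ A) → EE (Gr H' κ') κ' A x y = 0 := by
    intro x y hne hA
    rw [ee_off _ _ _ hne]
    unfold cd
    rw [if_neg hA, neg_zero]
  -- the support
  have hE : ∀ f : Tor d M → ℝ, (∀ x, ¬ Box a L x → f x = 0) →
      |qd (EE (Gr H' κ') κ' A) f - qd E1 f| ≤ n * qd E1 f := by
    intro f hf
    set f' : Tor d M → ℝ := fun x => if x ∈ A then f x else 0 with hf'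
    have e1 : ∀ x ∈ A, f x = f' x := fun x hx => by rw [hf']; simp [hx]
    rw [qd_nodes hs' hr' hoff' e1, qd_nodes hs1 hr1 hoff1 e1]
    refine hfrm f' fun x hx => ?_
    rw [hf']
    by_cases hxA : x ∈ A
    · simp only [hxA, if_true]
      exact hf x fun hB => hx ⟨hxA, hB⟩
    · simp [hxA]
  -- the tail
  have htl : ∀ f g : Tor d M → ℝ, |lap (out (Core a L R) (dlt (EE (Gr H' κ') κ' A) E1)) f| ≤
      mor sT tT (fun x => if x ∈ A then
        TN d β c r r0 τs b.card * Real.exp (-(β / 2 * φ x)) / w' x * w' x else 0)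
        (fun e => TE d β c r r0 τs K b.card * Real.exp (-(β / (4 * K) * φ (sT e)))) f g := by
    intro f g
    have h2 := tai_tor (A := fun x => x ∈ A) (ρ := φ) (T := 8 + 4 * τs) (a := β) (c := c)
      (r := r) (r0 := r0) (K := K) (δ := out (Core a L R) (dlt (EE (Gr H' κ') κ' A) E1)) b
      (D0 := D0) hD0 hU.plt.nn hφ1 (by linarith) hβ hc hφc hK hKr hKc
      (fun x y => ?_) (fun x y hd => ?_) f g
    · refine h2.trans (mor_mono sT tT (fun x => ?_) (fun e => ?_) f g)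
      · unfold cutX TN
        by_cases hx : x ∈ A
        · rw [if_pos hx, if_pos hx, div_mul_cancel₀ _ (hw' x hx).1.ne']
        · rw [if_neg hx, if_neg hx]
      · unfold TE
        exact le_rfl
    · unfold out
      by_cases hC : Core a L R x ∧ Core a L R y
      · rw [if_pos hC, abs_zero]
        exact mul_nonneg (by linarith) (Real.exp_pos _).le
      · rw [if_neg hC]
        unfold dlt
        by_cases hxy : x = y
        · rw [if_pos hxy, abs_zero]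
          exact mul_nonneg (by linarith) (Real.exp_pos _).le
        · rw [if_neg hxy, abs_sub_comm]
          refine (hU.ee_tail hτb hτF hL hxy fun hF => hC ⟨hFc x hF.1, hFc y hF.2⟩).trans ?_
          split
          · exact le_rfl
          · exact mul_nonneg (by linarith) (Real.exp_pos _).le
    · unfold out at hd
      by_cases hC : Core a L R x ∧ Core a L R y
      · rw [if_pos hC] at hd; exact absurd rfl hd
      · rw [if_neg hC] at hd
        unfold dlt at hd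
        by_cases hxy : x = y
        · rw [if_pos hxy] at hd; exact absurd rfl hd
        · rw [if_neg hxy] at hd
          have hA : x ∈ A ∧ y ∈ A := by
            by_contra hA
            rw [hoff1 x y hxy hA, hoff' x y hxy hA, sub_zero] at hd
            exact hd rfl
          refine ⟨hA.1, hA.2, ?_⟩
          have hx0 := hU.plt.nn x
          have hy0 := hU.plt.nn y
          by_cases hx : Core a L R x
          · have hy : ¬ Core a L R y := fun hy => hC ⟨hx, hy⟩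
            have := hr y hA.2 hy
            linarith
          · have := hr x hA.1 hx
            linarith
  have hTE0 : 0 ≤ TE d β c r r0 τs K b.card := by unfold TE; positivity
  have hTN0 : 0 ≤ TN d β c r r0 τs b.card := by unfold TN; positivity
  have hmain := err (ta := fun x => TN d β c r r0 τs b.card * Real.exp (-(β / 2 * φ x)) / w' x)
    (tb := fun e => TE d β c r r0 τs K b.card * Real.exp (-(β / (4 * K) * φ (sT e))))
    (Q' := qd (EE (Gr H' κ') κ' A))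
    (D := lap (inn (Core a L R) (dlt (EE (Gr H' κ') κ' A) E1)))
    (tl := lap (out (Core a L R) (dlt (EE (Gr H' κ') κ' A) E1)))
    a hL0 hLM hR h hL hw hw' h0 h1 h0u h1u hcu hτ hb0 hbl hbb hbu hbu1 hb1 hn hm hE
    (fun f => by rw [qd_sub hs' hr' hs1 hr1, lap_split (Core a L R)])
    (fun f g c hfg => lap_loc (Core a L R) _ f g c hfg)
    (fun x hx => ⟨div_nonneg (mul_nonneg hTN0 (Real.exp_pos _).le) (hw' x hx).1.le,
      (div_le_iff₀ (hw' x hx).1).2 (hta x hx)⟩)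
    (fun e => ⟨mul_nonneg hTE0 (Real.exp_pos _).le, by
      have e1 : Real.exp (-(β / (4 * K) * φ (sT e))) ≤ 1 := by
        rw [Real.exp_le_one_iff]
        have := hU.plt.nn (sT e)
        have : 0 ≤ β / (4 * K) * φ (sT e) := by positivity
        linarith
      exact (mul_le_of_le_one_right hTE0 e1).trans htb⟩)
    htl hu hu2 f g
  refine hmain.trans (mor_mono sT tT (fun x => ?_) (fun e => ?_) f g)
  · by_cases hx : x ∈ A
    · rw [if_pos hx, if_pos hx, add_mul, div_mul_cancel₀ _ (hw' x hx).1.ne']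
      have hwx := (hw' x hx).1
      have e1 : (if Box a L x then u else 0) * w' x ≤ nn / 2 * om x * w' x := by
        refine mul_le_mul_of_nonneg_right ?_ hwx.le
        have hu0 : 0 ≤ u := le_trans (by positivity) hu2
        have hnn : 0 ≤ nn / 2 := hu0.trans hun
        split
        · rename_i hB
          calc u ≤ nn / 2 * 1 := by linarith
            _ ≤ nn / 2 * om x := mul_le_mul_of_nonneg_left (homB x hB) hnn
        · exact mul_nonneg hnn (hom0 x)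
      have e2 := hom x hx
      calc _ ≤ nn / 2 * om x * w' x + nn / 2 * om x * w' x := add_le_add e1 e2
        _ = nn * om x * w' x := by ring
    · rw [if_neg hx, if_neg hx]
  · have e1 : (if Box a L (sT e) ∧ Box a L (tT e) then u * b1 else 0) ≤ nn / 2 * D * ome e := by
      have hu0 : 0 ≤ u := le_trans (by positivity) hu2
      have hnn : 0 ≤ nn / 2 := hu0.trans hun
      split
      · rename_i hB
        calc u * b1 ≤ nn / 2 * D * 1 := by linarith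
          _ ≤ nn / 2 * D * ome e :=
            mul_le_mul_of_nonneg_left (homeB e hB.1 hB.2) (mul_nonneg hnn hD)
      · exact mul_nonneg (mul_nonneg hnn hD) (home0 e)
    calc _ ≤ nn / 2 * D * ome e + nn / 2 * D * ome e := add_le_add e1 (home e)
      _ = nn * D * ome e := by ring

/-- (FSTEP) the form part of one block update, relative to the start of the stage -/
theorem fst_step (a : Tor d M) (hL0 : 0 < L) (hLM : L ≤ M) (hR : 0 < R)
    {H H' : Matrix (Tor d M) (Tor d M) ℝ} {κ κ' φ : Tor d M → ℝ} {F A S b : Finset (Tor d M)}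
    {h₀ k₀ β τs : ℝ} (hU : Upd H H' κ κ' φ F A S h₀ k₀ β) (hFA : F ⊆ A) (hβ : 0 < β)
    {w0 w w' el0 eu0 Ψ τ om : Tor d M → ℝ} {bl0 bu0 Ψe ome : Bd d M → ℝ}
    {b0 bb b1 n m u cu nn D : ℝ}
    (h : Fm sT tT A w (fun x => el0 x * (w x / w0 x) + 4 * (nn * Ψ x))
      (fun x => eu0 x * (w x / w0 x) + 4 * (nn * Ψ x))
      (fun e => bl0 e - nn * D * Ψe e) (fun e => bu0 e + nn * D * Ψe e)
      (qd (EE (Gr H κ) κ A)))
    (hτ0 : ∀ x, 0 ≤ τ x) (hτs : ∀ x, τ x ≤ τs) (hτF : ∀ x, x ∉ F → τ x = 0)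
    (hw0 : ∀ x ∈ A, 0 < w0 x) (hw : ∀ x ∈ A, 0 < w x) (hw' : ∀ x ∈ A, 0 < w' x ∧ w' x ≤ w x)
    (h0 : ∀ x ∈ A, 0 ≤ el0 x) (h0u : ∀ x ∈ A, 0 ≤ eu0 x)
    (hΨ : ∀ x ∈ A, 0 ≤ Ψ x)
    (h1 : ∀ x ∈ A, el0 x * (w x / w0 x) + 4 * (nn * Ψ x) ≤ 1 / 4)
    (h1u : ∀ x ∈ A, 1 ≤ cu * (1 - (eu0 x * (w x / w0 x) + 4 * (nn * Ψ x)))) (hcu : 0 < cu)
    (h2u : ∀ x ∈ A, eu0 x * (w x / w0 x) + 4 * (nn * Ψ x) + 4 * (nn * om x) < 1)
    (hτ : ∀ x ∈ A, τ x = 1 / w' x - 1 / w x) (hv : ∀ x ∈ A, nn * om x ≤ 1 / 16)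
    (hb0 : 0 < b0) (hbl : ∀ e, b0 ≤ bl0 e - nn * D * Ψe e) (hbb : 0 < bb)
    (hbu : ∀ e, bb ≤ bu0 e + nn * D * Ψe e)
    (hbu1 : ∀ e, bu0 e + nn * D * Ψe e ≤ b1) (hb1 : 0 ≤ b1) (hn : 0 ≤ n) (hm : 0 ≤ m)
    (hfrm : ∀ E1 : Matrix (Tor d M) (Tor d M) ℝ, Lad (EE (Gr H κ) κ A) E1 τ →
      ∀ f : Tor d M → ℝ, (∀ x, ¬ (x ∈ A ∧ Box a L x) → f x = 0) →
        |qd (EE (Gr H' κ') κ' A) f - qd E1 f| ≤ n * qd E1 f)
    (hFc : ∀ x ∈ F, Core a L R x) (hφ1 : ∀ e : Bd d M, |φ (tT e) - φ (sT e)| ≤ 1)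
    {c r0 r K : ℝ} {D0 : ℕ} (hc : 0 < c) (hD0 : ∀ y ∈ b, ∀ z ∈ b, dT y z ≤ D0)
    (hφc : ∀ x ∈ A, ∃ y ∈ b, c * dT x y - r0 ≤ φ x) (hK : 1 ≤ K)
    (hKr : 2 * r0 / c + D0 ≤ (K - 1 / c) * r) (hKc : 1 / c ≤ K)
    (hr : ∀ x ∈ A, ¬ Core a L R x → r ≤ φ x)
    (hta : ∀ x ∈ A, TN d β c r r0 τs b.card * Real.exp (-(β / 2 * φ x)) ≤ m * w' x)
    (htb : TE d β c r r0 τs K b.card ≤ m * b0)
    (hu : (2 + 2 * (d : ℝ) ^ 2 * ((L : ℝ) / R) ^ 2 * (b1 / bb)) * (n + 2 * m) * cu ≤ u)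
    (hu2 : (2 + 2 * (d : ℝ) ^ 2 * ((L : ℝ) / R) ^ 2 * (b1 / bb)) * (n + 2 * m) ≤ u)
    (hun : u ≤ nn / 2) (hub : u * b1 ≤ nn / 2 * D) (hD : 0 ≤ D)
    (hom0 : ∀ x, 0 ≤ om x) (home0 : ∀ e, 0 ≤ ome e)
    (homB : ∀ x, Box a L x → 1 ≤ om x)
    (homeB : ∀ e : Bd d M, Box a L (sT e) → Box a L (tT e) → 1 ≤ ome e)
    (hom : ∀ x ∈ A, TN d β c r r0 τs b.card * Real.exp (-(β / 2 * φ x)) ≤ nn / 2 * om x * w' x)
    (home : ∀ e : Bd d M, TE d β c r r0 τs K b.card * Real.exp (-(β / (4 * K) * φ (sT e))) ≤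
      nn / 2 * D * ome e) :
    Fm sT tT A w' (fun x => el0 x * (w' x / w0 x) + 4 * (nn * (Ψ x + om x)))
      (fun x => eu0 x * (w' x / w0 x) + 4 * (nn * (Ψ x + om x)))
      (fun e => bl0 e - nn * D * (Ψe e + ome e))
      (fun e => bu0 e + nn * D * (Ψe e + ome e)) (qd (EE (Gr H' κ') κ' A)) := by
  have hsG : ∀ x y, Gr H κ x y = Gr H κ y x := (hGeq _ H κ hU.n).2.1
  have hκ : ∀ x, 0 ≤ κ x := fun x => (hU.n.pos x).le
  obtain ⟨-, hL⟩ := lad_exists (issymm (ee_symm hsG κ A)) (ee_psd hsG hκ A) hτ0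
  have hu0 : 0 ≤ u := le_trans (by positivity) hu2
  have hnn : 0 ≤ nn := by linarith
  have hr0 : ∀ x ∈ A, 0 ≤ w x / w0 x := fun x hx => div_nonneg (hw x hx).le (hw0 x hx).le
  refine fm_step h hL hw0 hw hw' h0 h0u hnn hΨ (fun x _ => hom0 x) h1 h2u hτ hv ?_
  exact fst_err a hL0 hLM hR hU hFA hβ h hL hτs hτF hw hw'
    (fun x hx => add_nonneg (mul_nonneg (h0 x hx) (hr0 x hx))
      (mul_nonneg (by norm_num) (mul_nonneg hnn (hΨ x hx)))) h1
    (fun x hx => add_nonneg (mul_nonneg (h0u x hx) (hr0 x hx))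
      (mul_nonneg (by norm_num) (mul_nonneg hnn (hΨ x hx)))) h1u hcu hτ hb0 hbl hbb hbu hbu1 hb1
    hn hm (hfrm _ hL) hFc hφ1 hc hD0 hφc hK hKr hKc hr hta htb hu hu2 hun hub hD hom0 home0 homB
    homeB hom home

end torus

end Pool.Agent.LTG.Fst
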