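import Pool.Agent.LTG.Defs

/-!
# Local to global on a graph: one block, errors, sums, kills
-/

set_option autoImplicit false

open scoped BigOperators
open Finset

namespace Pool.Agent.LTG

variable {X ep : Type*} [Fintype X] [Fintype ep] (s t : ep → X)

lemma mor_add (al al' : X → ℝ) (be be' : ep → ℝ) (f h : X → ℝ) :
    mor s t (fun x => al x + al' x) (fun e => be e + be' e) f h =
      mor s t al be f h + mor s t al' be' f h := by
  unfold mor bon
  simp only [add_mul, Finset.sum_add_distrib]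
  ring

lemma mor_sub (al al' : X → ℝ) (be be' : ep → ℝ) (f h : X → ℝ) :
    mor s t (fun x => al x - al' x) (fun e => be e - be' e) f h =
      mor s t al be f h - mor s t al' be' f h := by
  unfold mor bon
  simp only [sub_mul, Finset.sum_sub_distrib]
  ring

lemma mor_smul (u : ℝ) (al : X → ℝ) (be : ep → ℝ) (f h : X → ℝ) :
    mor s t (fun x => u * al x) (fun e => u * be e) f h = u * mor s t al be f h := by
  unfold mor bon
  simp only [mul_add, Finset.mul_sum, mul_assoc]

lemma mor_sum {J : Type*} (A : Finset J) (u : J → ℝ) (al : J → X → ℝ) (be : J → ep → ℝ)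
    (f h : X → ℝ) :
    mor s t (fun x => ∑ j ∈ A, u j * al j x) (fun e => ∑ j ∈ A, u j * be j e) f h =
      ∑ j ∈ A, u j * mor s t (al j) (be j) f h := by
  unfold mor bon
  have e1 : ∑ x, (∑ j ∈ A, u j * al j x) * (f x - h x) ^ 2 =
      ∑ j ∈ A, u j * ∑ x, al j x * (f x - h x) ^ 2 := by
    simp only [Finset.sum_mul, Finset.mul_sum]
    rw [Finset.sum_comm]
    refine Finset.sum_congr rfl fun j _ => Finset.sum_congr rfl fun x _ => ?_
    ring
  have e2 : ∑ e, (∑ j ∈ A, u j * be j e) * (h (t e) - h (s e)) ^ 2 =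
      ∑ j ∈ A, u j * ∑ e, be j e * (h (t e) - h (s e)) ^ 2 := by
    simp only [Finset.sum_mul, Finset.mul_sum]
    rw [Finset.sum_comm]
    refine Finset.sum_congr rfl fun j _ => Finset.sum_congr rfl fun e _ => ?_
    ring
  rw [e1, e2, ← Finset.sum_add_distrib]
  refine Finset.sum_congr rfl fun j _ => ?_
  ring

lemma mor_mono {al al' : X → ℝ} {be be' : ep → ℝ} (ha : ∀ x, al x ≤ al' x)
    (hb : ∀ e, be e ≤ be' e) (f h : X → ℝ) : mor s t al be f h ≤ mor s t al' be' f h := by
  unfold mor bon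
  refine add_le_add (Finset.sum_le_sum fun x _ => ?_) (Finset.sum_le_sum fun e _ => ?_)
  · exact mul_le_mul_of_nonneg_right (ha x) (sq_nonneg _)
  · exact mul_le_mul_of_nonneg_right (hb e) (sq_nonneg _)

lemma mor_nonneg {al : X → ℝ} {be : ep → ℝ} (ha : ∀ x, 0 ≤ al x) (hb : ∀ e, 0 ≤ be e)
    (f h : X → ℝ) : 0 ≤ mor s t al be f h := by
  unfold mor bon
  refine add_nonneg (Finset.sum_nonneg fun x _ => ?_) (Finset.sum_nonneg fun e _ => ?_)
  · exact mul_nonneg (ha x) (sq_nonneg _)
  · exact mul_nonneg (hb e) (sq_nonneg _)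

/-- weaker weights keep the lower bound -/
lemma lb_mono {Q : (X → ℝ) → ℝ} {al al' : X → ℝ} {be be' : ep → ℝ} (ha : ∀ x, al' x ≤ al x)
    (hb : ∀ e, be' e ≤ be e) (h : LB s t Q al be) : LB s t Q al' be' := by
  intro f
  obtain ⟨h0, h1⟩ := h f
  exact ⟨h0, (mor_mono s t ha hb f h0).trans h1⟩

/-- stronger weights keep the upper bound -/
lemma ub_mono {Q : (X → ℝ) → ℝ} {al al' : X → ℝ} {be be' : ep → ℝ} (ha : ∀ x, al x ≤ al' x)
    (hb : ∀ e, be e ≤ be' e) (h : UB s t Q al be) : UB s t Q al' be' := fun f g =>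
  (h f g).trans (mor_mono s t ha hb f g)

/-- (LER) an error which is controlled by a Moreau expression moves the weights of the lower
bound -/
theorem ler {Q Q' : (X → ℝ) → ℝ} {al al' : X → ℝ} {be be' : ep → ℝ} (h : LB s t Q al be)
    (hE : ∀ f h, Q f - mor s t al' be' f h ≤ Q' f) :
    LB s t Q' (fun x => al x - al' x) (fun e => be e - be' e) := by
  intro f
  obtain ⟨h0, h1⟩ := h f
  refine ⟨h0, ?_⟩
  rw [mor_sub]
  linarith [hE f h0]

/-- (UER) the same for the upper bound -/
theorem uer {Q Q' : (X → ℝ) → ℝ} {al al' : X → ℝ} {be be' : ep → ℝ} (h : UB s t Q al be)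
    (hE : ∀ f h, Q' f ≤ Q f + mor s t al' be' f h) :
    UB s t Q' (fun x => al x + al' x) (fun e => be e + be' e) := by
  intro f h0
  rw [mor_add]
  linarith [hE f h0, h f h0]

/-- (SUM) many local errors: their sum is a global error -/
theorem sumer {J : Type*} (A : Finset J) (B : J → X → Prop) [∀ j, DecidablePred (B j)]
    (u : J → ℝ) (U : ℝ) {al : X → ℝ} {be : ep → ℝ} (hu : ∀ j ∈ A, 0 ≤ u j)
    (ha : ∀ x, 0 ≤ al x) (hb : ∀ e, 0 ≤ be e)
    (hU : ∀ x, ∑ j ∈ A, (if B j x then u j else 0) ≤ U) (f h : X → ℝ) :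
    ∑ j ∈ A, u j * morB s t (B j) al be f h ≤ U * mor s t al be f h := by
  unfold morB
  rw [← mor_sum, ← mor_smul]
  refine mor_mono s t (fun x => ?_) (fun e => ?_) f h
  · have e1 : ∑ j ∈ A, u j * cutX (B j) al x = (∑ j ∈ A, (if B j x then u j else 0)) * al x := by
      rw [Finset.sum_mul]
      refine Finset.sum_congr rfl fun j _ => ?_
      unfold cutX
      split <;> simp
    rw [e1]
    exact mul_le_mul_of_nonneg_right (hU x) (ha x)
  · have e1 : ∑ j ∈ A, u j * cutE s t (B j) be e ≤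
        (∑ j ∈ A, (if B j (s e) then u j else 0)) * be e := by
      rw [Finset.sum_mul]
      refine Finset.sum_le_sum fun j hj => ?_
      unfold cutE
      by_cases h1 : B j (s e)
      · by_cases h2 : B j (t e)
        · rw [if_pos ⟨h1, h2⟩, if_pos h1]
        · rw [if_neg (fun h => h2 h.2), if_pos h1, mul_zero]
          exact mul_nonneg (hu j hj) (hb e)
      · rw [if_neg (fun h => h1 h.1), if_neg h1, mul_zero, zero_mul]
    exact e1.trans (mul_le_mul_of_nonneg_right (hU (s e)) (hb e))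

/-- the part of the Moreau expression in `B` is at most the whole -/
lemma morB_le (B : X → Prop) [DecidablePred B] {al : X → ℝ} {be : ep → ℝ}
    (ha : ∀ x, 0 ≤ al x) (hb : ∀ e, 0 ≤ be e) (f h : X → ℝ) :
    morB s t B al be f h ≤ mor s t al be f h := by
  unfold morB
  refine mor_mono s t (fun x => ?_) (fun e => ?_) f h
  · unfold cutX; split
    · exact le_rfl
    · exact ha x
  · unfold cutE; split
    · exact le_rfl
    · exact hb e

lemma morB_nonneg (B : X → Prop) [DecidablePred B] {al : X → ℝ} {be : ep → ℝ}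
    (ha : ∀ x, 0 ≤ al x) (hb : ∀ e, 0 ≤ be e) (f h : X → ℝ) :
    0 ≤ morB s t B al be f h := by
  unfold morB
  refine mor_nonneg s t (fun x => ?_) (fun e => ?_) f h
  · unfold cutX; split
    · exact ha x
    · exact le_rfl
  · unfold cutE; split
    · exact hb e
    · exact le_rfl

lemma morB_eq (B : X → Prop) [DecidablePred B] (al : X → ℝ) (be : ep → ℝ) (f h : X → ℝ) :
    morB s t B al be f h = ∑ x, (if B x then al x * (f x - h x) ^ 2 else 0) +
      ∑ e, (if B (s e) ∧ B (t e) then be e * (h (t e) - h (s e)) ^ 2 else 0) := by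
  unfold morB mor bon cutX cutE
  refine congrArg₂ _ (Finset.sum_congr rfl fun x _ => ?_) (Finset.sum_congr rfl fun e _ => ?_)
  · split <;> simp
  · split <;> simp

/-- a set `B` of sites with a Poincaré inequality (constant `P`), and a cutoff function which is
`1` on `B'` and lives strictly inside `B` (squares of its increments at most `l`) -/
structure Cut (B' B : X → Prop) [DecidablePred B] (P l dg : ℝ) : Prop where
  poi : ∀ h : X → ℝ, ∃ c : ℝ, ∑ x, (if B x then (h x - c) ^ 2 else 0) ≤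
    P * ∑ e, (if B (s e) ∧ B (t e) then (h (t e) - h (s e)) ^ 2 else 0)
  cut : ∃ χ : X → ℝ, (∀ x, 0 ≤ χ x ∧ χ x ≤ 1) ∧ (∀ x, B' x → χ x = 1) ∧
    (∀ x, ¬ B x → χ x = 0) ∧ (∀ e, (χ (t e) - χ (s e)) ^ 2 ≤ l) ∧
    (∀ e, ¬ (B (s e) ∧ B (t e)) → χ (s e) = 0 ∧ χ (t e) = 0)
  deg : ∀ φ : X → ℝ, (∀ x, 0 ≤ φ x) →
    ∑ e, (if B (s e) ∧ B (t e) then φ (s e) else 0) ≤ dg * ∑ x, (if B x then φ x else 0)

/-- (LTG) local to global for one block. `D` sees `f` only in `B'` and does not see constants,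
`|D| ≤ n Q1` on the functions which vanish outside `B`, `Q1` is bounded above by the Moreau form: then `D` is bounded by
`C n` times the part of the Moreau expression in `B`, for every `f` and every `h`. -/
theorem ltg {B' B : X → Prop} [DecidablePred B] {P l dg : ℝ} (hc : Cut s t B' B P l dg)
    (hP : 0 ≤ P) (hl : 0 ≤ l) (hdg : 0 ≤ dg) {al : X → ℝ} {be : ep → ℝ} {b0 b1 : ℝ}
    (hb0 : 0 < b0) (hb1 : 0 ≤ b1) (ha : ∀ x, 0 ≤ al x)
    (hbe : ∀ e, B (s e) ∧ B (t e) → b0 ≤ be e ∧ be e ≤ b1)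
    {Q1 D : (X → ℝ) → ℝ} (hU : UB s t Q1 al be) {n : ℝ} (hn : 0 ≤ n)
    (hD : ∀ f : X → ℝ, (∀ x, ¬ B x → f x = 0) → |D f| ≤ n * Q1 f)
    (hloc : ∀ f g : X → ℝ, ∀ c : ℝ, (∀ x, B' x → f x - g x = c) → D f = D g) (f h : X → ℝ) :
    |D f| ≤ n * (2 + 2 * l * dg * P * (b1 / b0)) * morB s t B al be f h := by
  obtain ⟨χ, h01, h1, h0, hlip, hout⟩ := hc.cut
  obtain ⟨c, hpc⟩ := hc.poi h
  set g : X → ℝ := fun x => χ x * (f x - c) with hg
  set k : X → ℝ := fun x => χ x * (h x - c) with hk
  have hDg : D f = D g := by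
    apply hloc f g c
    intro x hx
    rw [hg]
    simp only [h1 x hx]
    ring
  rw [hDg]
  set K : ℝ := 2 + 2 * l * dg * P * (b1 / b0) with hK
  -- nodes
  have hnod : ∑ x, al x * (g x - k x) ^ 2 ≤ ∑ x, (if B x then al x * (f x - h x) ^ 2 else 0) := by
    refine Finset.sum_le_sum fun x _ => ?_
    have e1 : (g x - k x) ^ 2 = χ x ^ 2 * (f x - h x) ^ 2 := by rw [hg, hk]; ring
    rw [e1]
    by_cases hx : B x
    · rw [if_pos hx]
      have : χ x ^ 2 ≤ 1 := by
        have := h01 x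
        nlinarith
      have h2 : χ x ^ 2 * (f x - h x) ^ 2 ≤ 1 * (f x - h x) ^ 2 :=
        mul_le_mul_of_nonneg_right this (sq_nonneg _)
      rw [one_mul] at h2
      exact mul_le_mul_of_nonneg_left h2 (ha x)
    · rw [if_neg hx, h0 x hx]
      simp
  -- bonds
  set G : ℝ := ∑ e, (if B (s e) ∧ B (t e) then (h (t e) - h (s e)) ^ 2 else 0) with hG
  set GB : ℝ := ∑ e, (if B (s e) ∧ B (t e) then be e * (h (t e) - h (s e)) ^ 2 else 0) with hGB
  have hGG : b0 * G ≤ GB := by
    rw [hG, hGB, Finset.mul_sum]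
    refine Finset.sum_le_sum fun e _ => ?_
    split
    · rename_i he
      exact mul_le_mul_of_nonneg_right (hbe e he).1 (sq_nonneg _)
    · simp
  have hG0 : 0 ≤ G := Finset.sum_nonneg fun e _ => by split <;> positivity
  have hbon : ∑ e, be e * (k (t e) - k (s e)) ^ 2 ≤ K * GB := by
    have hpt : ∀ e, be e * (k (t e) - k (s e)) ^ 2 ≤
        2 * (if B (s e) ∧ B (t e) then be e * (h (t e) - h (s e)) ^ 2 else 0) +
        2 * b1 * l * (if B (s e) ∧ B (t e) then (h (s e) - c) ^ 2 else 0) := by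
      intro e
      by_cases he : B (s e) ∧ B (t e)
      · rw [if_pos he, if_pos he]
        have hb := hbe e he
        have hb' : 0 ≤ be e := hb0.le.trans hb.1
        have e1 : k (t e) - k (s e) = χ (t e) * (h (t e) - h (s e)) +
            (χ (t e) - χ (s e)) * (h (s e) - c) := by rw [hk]; ring
        have e2 : (k (t e) - k (s e)) ^ 2 ≤ 2 * (h (t e) - h (s e)) ^ 2 +
            2 * (l * (h (s e) - c) ^ 2) := by
          rw [e1]
          have i1 : (χ (t e) * (h (t e) - h (s e)) + (χ (t e) - χ (s e)) * (h (s e) - c)) ^ 2 ≤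
              2 * (χ (t e) * (h (t e) - h (s e))) ^ 2 +
              2 * ((χ (t e) - χ (s e)) * (h (s e) - c)) ^ 2 := by
            nlinarith [sq_nonneg (χ (t e) * (h (t e) - h (s e)) -
              (χ (t e) - χ (s e)) * (h (s e) - c))]
          have i2 : (χ (t e) * (h (t e) - h (s e))) ^ 2 ≤ (h (t e) - h (s e)) ^ 2 := by
            rw [mul_pow]
            have : χ (t e) ^ 2 ≤ 1 := by
              have := h01 (t e)
              nlinarith
            nlinarith [sq_nonneg (h (t e) - h (s e))]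
          have i3 : ((χ (t e) - χ (s e)) * (h (s e) - c)) ^ 2 ≤ l * (h (s e) - c) ^ 2 := by
            rw [mul_pow]
            exact mul_le_mul_of_nonneg_right (hlip e) (sq_nonneg _)
          linarith
        have e3 : be e * (k (t e) - k (s e)) ^ 2 ≤ be e * (2 * (h (t e) - h (s e)) ^ 2 +
            2 * (l * (h (s e) - c) ^ 2)) := mul_le_mul_of_nonneg_left e2 hb'
        have e4 : be e * (l * (h (s e) - c) ^ 2) ≤ b1 * (l * (h (s e) - c) ^ 2) :=
          mul_le_mul_of_nonneg_right hb.2 (by positivity)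
        nlinarith [e3, e4]
      · rw [if_neg he, if_neg he]
        have := hout e he
        rw [hk]
        simp only [this.1, this.2]
        simp
    have hs : ∑ e, be e * (k (t e) - k (s e)) ^ 2 ≤ 2 * GB + 2 * b1 * l *
        ∑ e, (if B (s e) ∧ B (t e) then (h (s e) - c) ^ 2 else 0) := by
      refine (Finset.sum_le_sum fun e _ => hpt e).trans (le_of_eq ?_)
      rw [Finset.sum_add_distrib, ← Finset.mul_sum, ← Finset.mul_sum]
    have h3 : ∑ e, (if B (s e) ∧ B (t e) then (h (s e) - c) ^ 2 else 0) ≤ dg * (P * G) :=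
        (hc.deg (fun x => (h x - c) ^ 2) (fun x => sq_nonneg _)).trans
          (mul_le_mul_of_nonneg_left hpc hdg)
    have h4 : G ≤ GB / b0 := by
      rw [le_div_iff₀ hb0]
      linarith
    have h5 : ∑ e, (if B (s e) ∧ B (t e) then (h (s e) - c) ^ 2 else 0) ≤
        dg * (P * (GB / b0)) := h3.trans (by gcongr)
    calc ∑ e, be e * (k (t e) - k (s e)) ^ 2 ≤ 2 * GB + 2 * b1 * l *
        ∑ e, (if B (s e) ∧ B (t e) then (h (s e) - c) ^ 2 else 0) := hs
      _ ≤ 2 * GB + 2 * b1 * l * (dg * (P * (GB / b0))) := by gcongr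
      _ = K * GB := by rw [hK]; ring
  have hK2 : 1 ≤ K := by
    have : 0 ≤ 2 * l * dg * P * (b1 / b0) := by positivity
    rw [hK]
    linarith
  have hGB0 : 0 ≤ GB := le_trans (by positivity) hGG
  have hN0 : 0 ≤ ∑ x, (if B x then al x * (f x - h x) ^ 2 else 0) :=
    Finset.sum_nonneg fun x _ => by
      split
      · exact mul_nonneg (ha x) (sq_nonneg _)
      · exact le_rfl
  have hm : mor s t al be g k ≤ K * morB s t B al be f h := by
    rw [morB_eq, mul_add]
    unfold mor bon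
    refine add_le_add (hnod.trans ?_) hbon
    nlinarith
  have hg0 : ∀ x, ¬ B x → g x = 0 := by
    intro x hx
    rw [hg]
    simp only [h0 x hx, zero_mul]
  calc |D g| ≤ n * Q1 g := hD g hg0
    _ ≤ n * (K * morB s t B al be f h) := mul_le_mul_of_nonneg_left ((hU g k).trans hm) hn
    _ = n * K * morB s t B al be f h := by ring

/-- (LTG, whole space) the trivial case -/
theorem ltg_all {al : X → ℝ} {be : ep → ℝ} {Q1 D : (X → ℝ) → ℝ} (hU : UB s t Q1 al be) {n : ℝ}
    (hn : 0 ≤ n) (hD : ∀ f, |D f| ≤ n * Q1 f) (f h : X → ℝ) :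
    |D f| ≤ n * mor s t al be f h :=
  (hD f).trans (mul_le_mul_of_nonneg_left (hU f h) hn)

end Pool.Agent.LTG
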