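import Pool.Agent.Helper22_LTG.Fst
import Pool.Agent.Helper61_ANP.Tor

/-!
# The form part of one block update, explicit geometry

Blocks and balls in the sup distance of the torus. If the ball of radius `2 ℓ` does not fit into the
torus, it is the whole torus and no locality is needed.
-/

set_option autoImplicit false

open scoped BigOperators Matrix
open Finset

noncomputable section

namespace Pool.Agent.LTG.Inc

open Pool.Agent.LTG Pool.Agent.LTG.H89 Pool.Agent.LTG.Fst Pool.Agent.ANR Pool.Agent.ANR.H89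
  Pool.Agent.AFJ Pool.Agent.LE.QF
open Pool.Agent.ANP.H61 (sd sd_le sd_self sd_comm sd_tri le_sd exists_int cd_le)

variable {d M : ℕ} [NeZero M]

/-! ### balls -/

/-- the corner of the ball -/
def crn (B : Tor d M) (ρ : ℕ) : Tor d M := fun i => B i - (ρ : ZMod M)

theorem box_sd {B x : Tor d M} {ρ : ℕ} (h : Box (crn B ρ) (2 * ρ + 1) x) : sd x B ≤ ρ := by
  rw [sd_le]
  intro i
  have hv := h i
  unfold off crn at hv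
  set v := (x i - (B i - (ρ : ZMod M))).val with hvd
  have h1 : x i - B i = (((v : ℤ) - ρ : ℤ) : ZMod M) := by
    push_cast
    rw [hvd, ZMod.natCast_zmod_val]
    ring
  refine (cd_le _ _ _ h1).trans ?_
  omega

theorem sd_core {B x : Tor d M} {ρ R : ℕ} (hM : 2 * ρ + 1 ≤ M) (h : sd x B + R ≤ ρ) :
    Core (crn B ρ) (2 * ρ + 1) R x := by
  intro i
  obtain ⟨k, hk, hk1⟩ := exists_int (x i) (B i)
  have h2 := le_sd x B i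
  have h3 : k.natAbs + R ≤ ρ := by rw [hk1]; omega
  obtain ⟨n, hn⟩ : ∃ n : ℕ, (n : ℤ) = k + ρ := ⟨(k + ρ).toNat, by omega⟩
  have h4 : x i - (B i - (ρ : ZMod M)) = (n : ZMod M) := by
    have : ((n : ℤ) : ZMod M) = ((k + ρ : ℤ) : ZMod M) := by rw [hn]
    push_cast at this
    rw [this, ← hk]
    ring
  have h5 : (x i - (B i - (ρ : ZMod M))).val = n := by
    rw [h4, ZMod.val_natCast_of_lt (by omega)]
  unfold off crn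
  rw [h5]
  omega

theorem sd_half (x y : Tor d M) : 2 * sd x y ≤ M := by
  have h : sd x y ≤ M / 2 := by
    rw [sd_le]
    intro i
    exact ZMod.natAbs_valMinAbs_le _
  omega

theorem dT_sd (x y : Tor d M) : dT x y ≤ d * sd x y := by
  have h : dT x y ≤ ∑ _i : Fin d, sd x y := by
    unfold dT
    refine Finset.sum_le_sum fun i _ => ?_
    have h1 := le_sd y x i
    rw [sd_comm] at h1
    exact h1
  simpa using h

/-! ### support in the nodes -/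

theorem supp_nodes {H H' : Matrix (Tor d M) (Tor d M) ℝ} {κ κ' φ τ : Tor d M → ℝ}
    {F A S : Finset (Tor d M)} {h₀ k₀ β τs n : ℝ} (hU : Upd H H' κ κ' φ F A S h₀ k₀ β)
    (hFA : F ⊆ A) {E1 : Matrix (Tor d M) (Tor d M) ℝ} (hL : Lad (EE (Gr H κ) κ A) E1 τ)
    (hτs : ∀ x, τ x ≤ τs) (hτF : ∀ x, x ∉ F → τ x = 0) {Pr : Tor d M → Prop}
    (hfrm : ∀ f : Tor d M → ℝ, (∀ x, ¬ (x ∈ A ∧ Pr x) → f x = 0) →
      |qd (EE (Gr H' κ') κ' A) f - qd E1 f| ≤ n * qd E1 f) (f : Tor d M → ℝ)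
    (hf : ∀ x, ¬ Pr x → f x = 0) : |qd (EE (Gr H' κ') κ' A) f - qd E1 f| ≤ n * qd E1 f := by
  have hsG' : ∀ x y, Gr H' κ' x y = Gr H' κ' y x := (hGeq _ H' κ' hU.n').2.1
  have hs' := ee_symm hsG' κ' A
  have hr' := ee_row (Gr H' κ') κ' A
  have hs1 : ∀ x y, E1 x y = E1 y x := fun x y => (lad_symm hL).apply y x
  have hr1 := lad_row hL (ee_row (Gr H κ) κ A)
  have hτb : ∀ x, 0 ≤ τ x ∧ τ x ≤ τs := fun x => ⟨hL.tau x, hτs x⟩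
  have hoff1 : ∀ x y, x ≠ y → ¬ (x ∈ A ∧ y ∈ A) → E1 x y = 0 := by
    intro x y hne hA
    have h2 : ¬ (x ∈ F ∧ y ∈ F) := fun hF => hA ⟨hFA hF.1, hFA hF.2⟩
    have h3 := hU.ee_tail hτb hτF hL hne h2
    rw [if_neg hA, ee_off _ _ _ hne] at h3
    have h4 : cd (Gr H' κ') κ' A x y = 0 := by unfold cd; rw [if_neg hA]
    rw [h4, neg_zero, zero_sub, abs_neg] at h3
    exact abs_eq_zero.1 (le_antisymm h3 (abs_nonneg _))
  have hoff' : ∀ x y, x ≠ y → ¬ (x ∈ A ∧ y ∈ A) → EE (Gr H' κ') κ' A x y = 0 := by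
    intro x y hne hA
    rw [ee_off _ _ _ hne]
    unfold cd
    rw [if_neg hA, neg_zero]
  set f' : Tor d M → ℝ := fun x => if x ∈ A then f x else 0 with hf'
  have e1 : ∀ x ∈ A, f x = f' x := fun x hx => by rw [hf']; simp [hx]
  rw [qd_nodes hs' hr' hoff' e1, qd_nodes hs1 hr1 hoff1 e1]
  refine hfrm f' fun x hx => ?_
  rw [hf']
  by_cases hxA : x ∈ A
  · simp only [hxA, if_true]
    exact hf x fun hB => hx ⟨hxA, hB⟩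
  · simp [hxA]

/-! ### the main theorem -/

/-- the potential of the block at `B` -/
def omB (ℓ : ℕ) (B x : Tor d M) : ℝ := Real.exp (2 - (sd x B : ℝ) / ℓ)

theorem omB_pos (ℓ : ℕ) (B x : Tor d M) : 0 < omB ℓ B x := Real.exp_pos _

theorem omB_ge {ℓ : ℕ} (hℓ : 0 < ℓ) {B x : Tor d M} (h : sd x B ≤ 2 * ℓ) : 1 ≤ omB ℓ B x := by
  unfold omB
  rw [← Real.exp_zero]
  apply Real.exp_le_exp.2
  have h1 : (0 : ℝ) < ℓ := by exact_mod_cast hℓ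
  have h2 : (sd x B : ℝ) ≤ 2 * ℓ := by exact_mod_cast h
  rw [sub_nonneg, div_le_iff₀ h1]
  exact h2

theorem omB_le (ℓ : ℕ) (B x : Tor d M) : omB ℓ B x ≤ 8 := by
  unfold omB
  have h1 : (2 : ℝ) - (sd x B : ℝ) / ℓ ≤ 2 := by
    have : (0 : ℝ) ≤ (sd x B : ℝ) / ℓ := by positivity
    linarith
  have h2 : Real.exp 2 ≤ 8 := by
    have h3 := Real.exp_one_lt_d9
    have h4 : Real.exp 2 = Real.exp 1 * Real.exp 1 := by rw [← Real.exp_add]; norm_num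
    rw [h4]
    nlinarith [Real.exp_pos 1]
  exact (Real.exp_le_exp.2 h1).trans h2

/-- a quantity which decays in `φ` is dominated by the potential -/
theorem tail_om {ℓ : ℕ} (hℓ : 0 < ℓ) {B y : Tor d M} {φ : Tor d M → ℝ} (h0 : 0 ≤ φ y)
    (hφ : 2 * ℓ < sd y B → (sd y B : ℝ) / 8 ≤ φ y) {t X Y : ℝ} (ht : 8 ≤ t * ℓ)
    (hX : 0 ≤ X) (hXY : X ≤ Y) : X * Real.exp (-(t * φ y)) ≤ Y * omB ℓ B y := by
  have hℓ' : (0 : ℝ) < ℓ := by exact_mod_cast hℓ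
  have ht0 : 0 ≤ t := by
    by_contra h
    have : t * ℓ < 0 := mul_neg_of_neg_of_pos (not_le.1 h) hℓ'
    linarith
  refine mul_le_mul hXY ?_ (Real.exp_pos _).le (hX.trans hXY)
  unfold omB
  apply Real.exp_le_exp.2
  rcases Nat.lt_or_ge (2 * ℓ) (sd y B) with h | h
  · have h1 := hφ h
    have h2 : (sd y B : ℝ) / ℓ ≤ t * φ y := by
      have h3 : (sd y B : ℝ) / ℓ ≤ t * ((sd y B : ℝ) / 8) := by
        rw [div_le_iff₀ hℓ']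
        have h4 : (0 : ℝ) ≤ sd y B := Nat.cast_nonneg _
        nlinarith
      exact h3.trans (mul_le_mul_of_nonneg_left h1 ht0)
    linarith
  · have h1 : (sd y B : ℝ) ≤ 2 * ℓ := by exact_mod_cast h
    have h2 : (sd y B : ℝ) / ℓ ≤ 2 := by rw [div_le_iff₀ hℓ']; exact h1
    have h3 : 0 ≤ t * φ y := mul_nonneg ht0 h0
    linarith

/-- the node tail -/
def TN' (d : ℕ) (β r0 τs : ℝ) (ℓ nb : ℕ) : ℝ := TN d β (1 / (2 * d)) ((ℓ : ℝ) / 8) r0 τs nb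

/-- the bond tail -/
def TE' (d : ℕ) (β r0 τs : ℝ) (ℓ nb : ℕ) : ℝ :=
  TE d β (1 / (2 * d)) ((ℓ : ℝ) / 8) r0 τs (22 * d) nb

/-- the plateau function is large away from the block -/
theorem phi_lb {F : Finset (Tor d M)} {B : Tor d M} {ℓ : ℕ} (hFB : ∀ x ∈ F, sd x B ≤ ℓ)
    {φ : Tor d M → ℝ} {r0 : ℝ} (hr8 : 8 * r0 ≤ ℓ)
    (hφ : ∀ y, ∃ x ∈ F, 1 / 2 * (sd x y : ℝ) - r0 ≤ φ y) (y : Tor d M) :
    (sd y B : ℝ) / 2 - 5 * ℓ / 8 ≤ φ y := by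
  obtain ⟨x, hx, h1⟩ := hφ y
  have h2 := sd_tri y x B
  have h3 := hFB x hx
  rw [sd_comm y x] at h2
  have h4 : (sd y B : ℝ) ≤ sd x y + ℓ := by exact_mod_cast h2.trans (by omega)
  linarith

theorem phi_lb2 {F : Finset (Tor d M)} {B : Tor d M} {ℓ : ℕ} (hFB : ∀ x ∈ F, sd x B ≤ ℓ)
    {φ : Tor d M → ℝ} {r0 : ℝ} (hr8 : 8 * r0 ≤ ℓ)
    (hφ : ∀ y, ∃ x ∈ F, 1 / 2 * (sd x y : ℝ) - r0 ≤ φ y) (y : Tor d M) (hy : 2 * ℓ < sd y B) :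
    (sd y B : ℝ) / 8 ≤ φ y := by
  have h1 := phi_lb hFB hr8 hφ y
  have h2 : (2 * ℓ : ℝ) < sd y B := by exact_mod_cast hy
  linarith

/-- the constant of local to global -/
theorem kk_le {ℓ R : ℕ} (hR : 0 < R) (hℓR : 2 * R = ℓ) {Du : ℝ} (hDu : 0 < Du) :
    2 + 2 * (d : ℝ) ^ 2 * (((2 * (2 * ℓ) + 1 : ℕ) : ℝ) / R) ^ 2 * (2 * Du / Du) ≤
      2 + 400 * (d : ℝ) ^ 2 := by
  have hRR : (ℓ : ℝ) = 2 * R := by exact_mod_cast hℓR.symm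
  have hR0 : (0 : ℝ) < R := by exact_mod_cast hR
  have hR1 : (1 : ℝ) ≤ R := by exact_mod_cast hR
  have hLR : ((2 * (2 * ℓ) + 1 : ℕ) : ℝ) / R ≤ 9 := by
    rw [div_le_iff₀ hR0]
    push_cast
    rw [hRR]
    linarith
  have h1 : (((2 * (2 * ℓ) + 1 : ℕ) : ℝ) / R) ^ 2 ≤ 81 := by
    have h2 : 0 ≤ ((2 * (2 * ℓ) + 1 : ℕ) : ℝ) / R := by positivity
    nlinarith
  have h3 : 2 * Du / Du = 2 := by field_simp
  rw [h3]
  have h4 : 0 ≤ (d : ℝ) ^ 2 := sq_nonneg _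
  nlinarith

/-- the error, the ball is the whole torus -/
theorem inc_err_all (hd : 0 < d) {H H' : Matrix (Tor d M) (Tor d M) ℝ} {κ κ' φ τ : Tor d M → ℝ}
    {F A S : Finset (Tor d M)} {h₀ k₀ β τs : ℝ} (hU : Upd H H' κ κ' φ F A S h₀ k₀ β)
    (hFA : F ⊆ A) (hβ : 0 < β) {B : Tor d M} {ℓ R : ℕ} (hM : M < 4 * ℓ + 1) (hℓ : 0 < ℓ) (hℓR : 2 * R = ℓ)
    (hFB : ∀ x ∈ F, sd x B ≤ ℓ) {r0 : ℝ} (hr0 : 0 ≤ r0) (hr8 : 8 * r0 ≤ ℓ)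
    (hβℓ : 704 * d ≤ β * ℓ) (hφ : ∀ y, ∃ x ∈ F, 1 / 2 * (sd x y : ℝ) - r0 ≤ φ y)
    (hφ1 : ∀ e : Bd d M, |φ (tT e) - φ (sT e)| ≤ 1)
    {w w' εl εu : Tor d M → ℝ} {bl bu : Bd d M → ℝ} {e1 m nn u u0 Dl Du wm : ℝ}
    {E1 : Matrix (Tor d M) (Tor d M) ℝ}
    (h : Fm sT tT A w εl εu bl bu (qd (EE (Gr H κ) κ A)))
    (hL : Lad (EE (Gr H κ) κ A) E1 τ) (hτs : ∀ x, τ x ≤ τs) (hτF : ∀ x, x ∉ F → τ x = 0)
    (hw : ∀ x ∈ A, 0 < w x) (hw' : ∀ x ∈ A, 0 < w' x ∧ w' x ≤ w x)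
    (hwm : 0 < wm) (hwm' : ∀ x ∈ A, wm ≤ w' x)
    (h0 : ∀ x ∈ A, 0 ≤ εl x ∧ εl x ≤ 1 / 4)
    (h0u : ∀ x ∈ A, 0 ≤ εu x ∧ εu x ≤ (1 + u0) / 2) (hu0 : 0 ≤ u0 ∧ u0 < 1)
    (hτ : ∀ x ∈ A, τ x = 1 / w' x - 1 / w x)
    (hDl : 0 < Dl) (hDu : 0 < Du)
    (hb : ∀ e, Dl / 2 ≤ bl e ∧ Du ≤ bu e ∧ bu e ≤ 2 * Du)
    (he1 : 0 ≤ e1) (hm : 0 ≤ m)
    (hfrm : ∀ f : Tor d M → ℝ, (∀ x, ¬ (x ∈ A ∧ sd x B ≤ 2 * ℓ) → f x = 0) →
      |qd (EE (Gr H' κ') κ' A) f - qd E1 f| ≤ e1 * qd E1 f)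
    (n1 : TN' d β r0 τs ℓ F.card ≤ m * wm) (n2 : TE' d β r0 τs ℓ F.card ≤ m * (Dl / 2))
    (n3 : TN' d β r0 τs ℓ F.card ≤ nn / 8 * wm) (n4 : TE' d β r0 τs ℓ F.card ≤ nn / 2 * Dl)
    (n5 : (2 + 400 * (d : ℝ) ^ 2) * (e1 + 2 * m) * (2 / (1 - u0)) ≤ u)
    (n6 : u ≤ nn / 8) (n7 : u * (2 * Du) ≤ nn / 2 * Dl) (f g : Tor d M → ℝ) :
    |qd (EE (Gr H' κ') κ' A) f - qd E1 f| ≤ mor sT tT
      (fun x => if x ∈ A then nn / 4 * omB ℓ B x * w' x else 0)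
      (fun e => nn / 4 * (4 * Dl) * omB ℓ B (sT e)) f g := by
  have hd1 : (1 : ℝ) ≤ d := by exact_mod_cast hd
  have hu1 : 0 < 1 - u0 := by linarith [hu0.2]
  have hcu : 0 < 2 / (1 - u0) := by positivity
  have hcu1 : 1 ≤ 2 / (1 - u0) := by rw [le_div_iff₀ hu1]; linarith [hu0.1]
  have hem : 0 ≤ e1 + 2 * m := by linarith
  have hKd : (1 : ℝ) ≤ 2 + 400 * (d : ℝ) ^ 2 := by nlinarith [sq_nonneg (d : ℝ)]
  have hKd0 : (0 : ℝ) ≤ 2 + 400 * (d : ℝ) ^ 2 := by linarith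
  have hu : 0 ≤ u := le_trans (by positivity) n5
  have hnn : 0 ≤ nn := by linarith
  have hcu2 : ∀ x ∈ A, 1 ≤ 2 / (1 - u0) * (1 - εu x) := by
    intro x hx
    have h1 := (h0u x hx).2
    have h2 : (1 - u0) / 2 ≤ 1 - εu x := by linarith
    calc (1 : ℝ) = 2 / (1 - u0) * ((1 - u0) / 2) := by field_simp
      _ ≤ _ := mul_le_mul_of_nonneg_left h2 hcu.le
  have hs := supp_nodes hU hFA hL hτs hτF (n := e1) (Pr := fun x => sd x B ≤ 2 * ℓ) hfrm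
  have hall : ∀ x : Tor d M, sd x B ≤ 2 * ℓ := fun x => by
    have := sd_half x B
    omega
  have hu' : (e1 + 2 * 0) * (2 / (1 - u0)) ≤ u := by
    refine le_trans ?_ n5
    refine mul_le_mul_of_nonneg_right ?_ hcu.le
    nlinarith
  have hu'' : e1 + 2 * 0 ≤ u := by
    refine le_trans ?_ hu'
    nlinarith
  have hmain := err_all (D := fun f => qd (EE (Gr H' κ') κ' A) f - qd E1 f)
    (tl := fun _ => 0) (ta := fun _ => 0) (tb := fun _ => 0) (m := 0) (n := e1)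
    (Q' := qd (EE (Gr H' κ') κ' A)) h hL hw hw' (fun x hx => (h0 x hx).1)
    (fun x hx => (h0 x hx).2) (fun x hx => (h0u x hx).1) hcu2 hcu hτ
    (b0 := Dl / 2) (b1 := 2 * Du) (by positivity) (fun e => (hb e).1)
    (fun e => hDu.le.trans (hb e).2.1) (fun e => (hb e).2.2) he1 le_rfl
    (fun f => hs f fun x hx => absurd (hall x) hx) (fun f => by simp)
    (fun x _ => ⟨le_rfl, le_rfl⟩) (fun e => ⟨le_rfl, by simp⟩)
    (fun f g => by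
      rw [abs_zero]
      unfold mor bon
      simp) hu' hu'' f g
  refine hmain.trans (mor_mono sT tT (fun x => ?_) (fun e => ?_) f g)
  · split
    · rename_i hx
      refine mul_le_mul_of_nonneg_right ?_ (hw' x hx).1.le
      have h1 := omB_ge hℓ (hall x)
      nlinarith
    · exact le_rfl
  · have h1 := omB_ge hℓ (hall (sT e))
    have h2 : nn / 4 * (4 * Dl) * 1 ≤ nn / 4 * (4 * Dl) * omB ℓ B (sT e) :=
      mul_le_mul_of_nonneg_left h1 (by positivity)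
    have h3 : 0 ≤ nn * Dl := by positivity
    linarith

/-- the error, the ball fits into the torus -/
theorem inc_err_box (hd : 0 < d) {H H' : Matrix (Tor d M) (Tor d M) ℝ} {κ κ' φ τ : Tor d M → ℝ}
    {F A S : Finset (Tor d M)} {h₀ k₀ β τs : ℝ} (hU : Upd H H' κ κ' φ F A S h₀ k₀ β)
    (hFA : F ⊆ A) (hβ : 0 < β) {B : Tor d M} {ℓ R : ℕ} (hM : 4 * ℓ + 1 ≤ M) (hℓ : 0 < ℓ) (hℓR : 2 * R = ℓ)
    (hFB : ∀ x ∈ F, sd x B ≤ ℓ) {r0 : ℝ} (hr0 : 0 ≤ r0) (hr8 : 8 * r0 ≤ ℓ)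
    (hβℓ : 704 * d ≤ β * ℓ) (hφ : ∀ y, ∃ x ∈ F, 1 / 2 * (sd x y : ℝ) - r0 ≤ φ y)
    (hφ1 : ∀ e : Bd d M, |φ (tT e) - φ (sT e)| ≤ 1)
    {w w' εl εu : Tor d M → ℝ} {bl bu : Bd d M → ℝ} {e1 m nn u u0 Dl Du wm : ℝ}
    {E1 : Matrix (Tor d M) (Tor d M) ℝ}
    (h : Fm sT tT A w εl εu bl bu (qd (EE (Gr H κ) κ A)))
    (hL : Lad (EE (Gr H κ) κ A) E1 τ) (hτs : ∀ x, τ x ≤ τs) (hτF : ∀ x, x ∉ F → τ x = 0)
    (hw : ∀ x ∈ A, 0 < w x) (hw' : ∀ x ∈ A, 0 < w' x ∧ w' x ≤ w x)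
    (hwm : 0 < wm) (hwm' : ∀ x ∈ A, wm ≤ w' x)
    (h0 : ∀ x ∈ A, 0 ≤ εl x ∧ εl x ≤ 1 / 4)
    (h0u : ∀ x ∈ A, 0 ≤ εu x ∧ εu x ≤ (1 + u0) / 2) (hu0 : 0 ≤ u0 ∧ u0 < 1)
    (hτ : ∀ x ∈ A, τ x = 1 / w' x - 1 / w x)
    (hDl : 0 < Dl) (hDu : 0 < Du)
    (hb : ∀ e, Dl / 2 ≤ bl e ∧ Du ≤ bu e ∧ bu e ≤ 2 * Du)
    (he1 : 0 ≤ e1) (hm : 0 ≤ m)
    (hfrm : ∀ f : Tor d M → ℝ, (∀ x, ¬ (x ∈ A ∧ sd x B ≤ 2 * ℓ) → f x = 0) →
      |qd (EE (Gr H' κ') κ' A) f - qd E1 f| ≤ e1 * qd E1 f)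
    (n1 : TN' d β r0 τs ℓ F.card ≤ m * wm) (n2 : TE' d β r0 τs ℓ F.card ≤ m * (Dl / 2))
    (n3 : TN' d β r0 τs ℓ F.card ≤ nn / 8 * wm) (n4 : TE' d β r0 τs ℓ F.card ≤ nn / 2 * Dl)
    (n5 : (2 + 400 * (d : ℝ) ^ 2) * (e1 + 2 * m) * (2 / (1 - u0)) ≤ u)
    (n6 : u ≤ nn / 8) (n7 : u * (2 * Du) ≤ nn / 2 * Dl) (f g : Tor d M → ℝ) :
    |qd (EE (Gr H' κ') κ' A) f - qd E1 f| ≤ mor sT tT
      (fun x => if x ∈ A then nn / 4 * omB ℓ B x * w' x else 0)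
      (fun e => nn / 4 * (4 * Dl) * omB ℓ B (sT e)) f g := by
  have hd1 : (1 : ℝ) ≤ d := by exact_mod_cast hd
  have hℓ' : (0 : ℝ) < ℓ := by exact_mod_cast hℓ
  have hu1 : 0 < 1 - u0 := by linarith [hu0.2]
  have hcu : 0 < 2 / (1 - u0) := by positivity
  have hcu1 : 1 ≤ 2 / (1 - u0) := by rw [le_div_iff₀ hu1]; linarith [hu0.1]
  have hem : 0 ≤ e1 + 2 * m := by linarith
  have hKd : (1 : ℝ) ≤ 2 + 400 * (d : ℝ) ^ 2 := by nlinarith [sq_nonneg (d : ℝ)]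
  have hKd0 : (0 : ℝ) ≤ 2 + 400 * (d : ℝ) ^ 2 := by linarith
  have hu : 0 ≤ u := le_trans (by positivity) n5
  have hnn : 0 ≤ nn := by linarith
  have hcu2 : ∀ x ∈ A, 1 ≤ 2 / (1 - u0) * (1 - εu x) := by
    intro x hx
    have h1 := (h0u x hx).2
    have h2 : (1 - u0) / 2 ≤ 1 - εu x := by linarith
    calc (1 : ℝ) = 2 / (1 - u0) * ((1 - u0) / 2) := by field_simp
      _ ≤ _ := mul_le_mul_of_nonneg_left h2 hcu.le
  have hR : 0 < R := by omega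
  have hRR : (ℓ : ℝ) = 2 * R := by exact_mod_cast hℓR.symm
  have hR0 : (0 : ℝ) < R := by exact_mod_cast hR
  have hR1 : (1 : ℝ) ≤ R := by exact_mod_cast hR
  have hKK := kk_le (d := d) hR hℓR hDu
  -- lower bounds of `φ`
  have hφ2 := phi_lb hFB hr8 hφ
  have hφ3 := phi_lb2 hFB hr8 hφ
  have hβ8 : 8 ≤ β / 2 * ℓ := by
    have h1 : β / 2 * ℓ = β * ℓ / 2 := by ring
    rw [h1]
    linarith
  have hβ9 : 8 ≤ β / (4 * (22 * (d : ℝ))) * ℓ := by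
    have h1 : β / (4 * (22 * (d : ℝ))) * ℓ = β * ℓ / (88 * d) := by field_simp; ring
    rw [h1, le_div_iff₀ (by positivity)]
    linarith
  have hTN0 : 0 ≤ TN' d β r0 τs ℓ F.card := by
    have hτs0 : 0 ≤ τs := (hL.tau 0).trans (hτs 0)
    unfold TN' TN
    positivity
  have hTE0 : 0 ≤ TE' d β r0 τs ℓ F.card := by
    have hτs0 : 0 ≤ τs := (hL.tau 0).trans (hτs 0)
    unfold TE' TE
    positivity
  refine fst_err (ome := fun e => omB ℓ B (sT e)) (om := omB ℓ B) (crn B (2 * ℓ))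
    (L := 2 * (2 * ℓ) + 1) (R := R) (by omega) (by omega) hR hU hFA hβ
    (b := F) (D := 4 * Dl) (nn := nn / 4) (u := u) (n := e1) (m := m) (b0 := Dl / 2)
    (bb := Du) (b1 := 2 * Du) (cu := 2 / (1 - u0)) h hL hτs hτF hw hw'
    (fun x hx => (h0 x hx).1) (fun x hx => (h0 x hx).2) (fun x hx => (h0u x hx).1) hcu2 hcu hτ
    (by positivity) (fun e => (hb e).1) hDu (fun e => (hb e).2.1) (fun e => (hb e).2.2)
    (by positivity) he1 hm ?_ ?_ hφ1 (c := 1 / (2 * d)) (r0 := r0) (r := (ℓ : ℝ) / 8)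
    (K := 22 * d) (D0 := d * (2 * ℓ)) (by positivity) ?_ ?_ ?_ ?_ ?_ ?_ ?_ ?_ ?_ ?_ ?_ ?_
    (by positivity) (fun x => (omB_pos ℓ B x).le) (fun e => (omB_pos ℓ B _).le) ?_ ?_ ?_ ?_ f g
  · -- frm
    intro f hf
    refine hfrm f fun x hx => hf x fun hB => hx ⟨hB.1, box_sd hB.2⟩
  · -- the block is in the core
    intro x hx
    have := hFB x hx
    exact sd_core (by omega) (by omega)
  · -- diameter
    intro y hy z hz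
    refine (dT_sd y z).trans (Nat.mul_le_mul_left d ?_)
    have h1 := sd_tri y B z
    have h2 := hFB y hy
    have h3 := hFB z hz
    rw [sd_comm] at h3
    omega
  · -- lower bound of `φ` in the distance `dT`
    intro x _
    obtain ⟨y, hy, h1⟩ := hφ x
    refine ⟨y, hy, le_trans ?_ h1⟩
    have h2 : (dT x y : ℝ) ≤ d * sd x y := by exact_mod_cast dT_sd x y
    rw [sd_comm] at h2
    have h3 : 1 / (2 * (d : ℝ)) * dT x y ≤ 1 / 2 * sd y x := by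
      rw [div_mul_eq_mul_div, div_le_iff₀ (by positivity)]
      linarith
    linarith
  · linarith
  · -- hKr
    push_cast
    have h1 : 2 * r0 / (1 / (2 * (d : ℝ))) = 4 * d * r0 := by field_simp; ring
    have h2 : 1 / (1 / (2 * (d : ℝ))) = 2 * d := by field_simp
    rw [h1, h2]
    nlinarith
  · have h2 : 1 / (1 / (2 * (d : ℝ))) = 2 * d := by field_simp
    rw [h2]
    linarith
  · -- outside of the core
    intro x _ hx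
    have h1 : 2 * ℓ < sd x B + R := by
      by_contra hc
      exact hx (sd_core (by omega) (by omega))
    have h2 : (2 * ℓ : ℝ) < sd x B + R := by exact_mod_cast h1
    have h3 := hφ2 x
    linarith
  · -- hta
    intro x hx
    have h1 : Real.exp (-(β / 2 * φ x)) ≤ 1 := by
      rw [Real.exp_le_one_iff]
      have := hU.plt.nn x
      have : 0 ≤ β / 2 * φ x := by positivity
      linarith
    calc _ ≤ TN' d β r0 τs ℓ F.card := mul_le_of_le_one_right hTN0 h1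
      _ ≤ m * wm := n1
      _ ≤ m * w' x := mul_le_mul_of_nonneg_left (hwm' x hx) hm
  · exact n2
  · -- hu
    refine le_trans ?_ n5
    exact mul_le_mul_of_nonneg_right (mul_le_mul_of_nonneg_right hKK hem) hcu.le
  · refine le_trans ?_ n5
    have h1 := mul_le_mul_of_nonneg_right hKK hem
    refine h1.trans ?_
    have h2 : 0 ≤ (2 + 400 * (d : ℝ) ^ 2) * (e1 + 2 * m) := mul_nonneg hKd0 hem
    nlinarith
  · linarith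
  · linarith
  · intro x hx
    exact omB_ge hℓ (box_sd hx)
  · intro e h1 _
    exact omB_ge hℓ (box_sd h1)
  · intro x hx
    have h1 := tail_om hℓ (hU.plt.nn x) (hφ3 x) (t := β / 2) hβ8 hTN0 n3
    have h2 : TN d β (1 / (2 * d)) ((ℓ : ℝ) / 8) r0 τs F.card * Real.exp (-(β / 2 * φ x)) ≤
        nn / 8 * wm * omB ℓ B x := h1
    refine h2.trans ?_
    have h3 := mul_le_mul_of_nonneg_left (hwm' x hx)
      (mul_nonneg (by positivity : (0 : ℝ) ≤ nn / 8) (omB_pos ℓ B x).le)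
    calc nn / 8 * wm * omB ℓ B x = nn / 8 * omB ℓ B x * wm := by ring
      _ ≤ nn / 8 * omB ℓ B x * w' x := h3
      _ = nn / 4 / 2 * omB ℓ B x * w' x := by ring
  · intro e
    have h1 := tail_om hℓ (hU.plt.nn (sT e)) (hφ3 (sT e)) (t := β / (4 * (22 * (d : ℝ)))) hβ9
      hTE0 n4
    refine (show _ from h1).trans (le_of_eq ?_)
    ring

/-- (INC, error) the error of one block -/
theorem inc_err (hd : 0 < d) {H H' : Matrix (Tor d M) (Tor d M) ℝ} {κ κ' φ τ : Tor d M → ℝ}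
    {F A S : Finset (Tor d M)} {h₀ k₀ β τs : ℝ} (hU : Upd H H' κ κ' φ F A S h₀ k₀ β)
    (hFA : F ⊆ A) (hβ : 0 < β) {B : Tor d M} {ℓ R : ℕ} (hℓ : 0 < ℓ) (hℓR : 2 * R = ℓ)
    (hFB : ∀ x ∈ F, sd x B ≤ ℓ) {r0 : ℝ} (hr0 : 0 ≤ r0) (hr8 : 8 * r0 ≤ ℓ)
    (hβℓ : 704 * d ≤ β * ℓ) (hφ : ∀ y, ∃ x ∈ F, 1 / 2 * (sd x y : ℝ) - r0 ≤ φ y)
    (hφ1 : ∀ e : Bd d M, |φ (tT e) - φ (sT e)| ≤ 1)
    {w w' εl εu : Tor d M → ℝ} {bl bu : Bd d M → ℝ} {e1 m nn u u0 Dl Du wm : ℝ}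
    {E1 : Matrix (Tor d M) (Tor d M) ℝ}
    (h : Fm sT tT A w εl εu bl bu (qd (EE (Gr H κ) κ A)))
    (hL : Lad (EE (Gr H κ) κ A) E1 τ) (hτs : ∀ x, τ x ≤ τs) (hτF : ∀ x, x ∉ F → τ x = 0)
    (hw : ∀ x ∈ A, 0 < w x) (hw' : ∀ x ∈ A, 0 < w' x ∧ w' x ≤ w x)
    (hwm : 0 < wm) (hwm' : ∀ x ∈ A, wm ≤ w' x)
    (h0 : ∀ x ∈ A, 0 ≤ εl x ∧ εl x ≤ 1 / 4)
    (h0u : ∀ x ∈ A, 0 ≤ εu x ∧ εu x ≤ (1 + u0) / 2) (hu0 : 0 ≤ u0 ∧ u0 < 1)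
    (hτ : ∀ x ∈ A, τ x = 1 / w' x - 1 / w x)
    (hDl : 0 < Dl) (hDu : 0 < Du)
    (hb : ∀ e, Dl / 2 ≤ bl e ∧ Du ≤ bu e ∧ bu e ≤ 2 * Du)
    (he1 : 0 ≤ e1) (hm : 0 ≤ m)
    (hfrm : ∀ f : Tor d M → ℝ, (∀ x, ¬ (x ∈ A ∧ sd x B ≤ 2 * ℓ) → f x = 0) →
      |qd (EE (Gr H' κ') κ' A) f - qd E1 f| ≤ e1 * qd E1 f)
    (n1 : TN' d β r0 τs ℓ F.card ≤ m * wm) (n2 : TE' d β r0 τs ℓ F.card ≤ m * (Dl / 2))
    (n3 : TN' d β r0 τs ℓ F.card ≤ nn / 8 * wm) (n4 : TE' d β r0 τs ℓ F.card ≤ nn / 2 * Dl)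
    (n5 : (2 + 400 * (d : ℝ) ^ 2) * (e1 + 2 * m) * (2 / (1 - u0)) ≤ u)
    (n6 : u ≤ nn / 8) (n7 : u * (2 * Du) ≤ nn / 2 * Dl) (f g : Tor d M → ℝ) :
    |qd (EE (Gr H' κ') κ' A) f - qd E1 f| ≤ mor sT tT
      (fun x => if x ∈ A then nn / 4 * omB ℓ B x * w' x else 0)
      (fun e => nn / 4 * (4 * Dl) * omB ℓ B (sT e)) f g := by
  rcases Nat.lt_or_ge M (4 * ℓ + 1) with hM | hM
  · exact inc_err_all hd hU hFA hβ hM hℓ hℓR hFB hr0 hr8 hβℓ hφ hφ1 h hL hτs hτF hw hw' hwm hwm'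
      h0 h0u hu0 hτ hDl hDu hb he1 hm hfrm n1 n2 n3 n4 n5 n6 n7 f g
  · exact inc_err_box hd hU hFA hβ hM hℓ hℓR hFB hr0 hr8 hβℓ hφ hφ1 h hL hτs hτF hw hw' hwm hwm'
      h0 h0u hu0 hτ hDl hDu hb he1 hm hfrm n1 n2 n3 n4 n5 n6 n7 f g

/-- (INC) one block update of the form -/
theorem inc_gen (hd : 0 < d) {H H' : Matrix (Tor d M) (Tor d M) ℝ} {κ κ' φ τ : Tor d M → ℝ}
    {F A S : Finset (Tor d M)} {h₀ k₀ β τs : ℝ} (hU : Upd H H' κ κ' φ F A S h₀ k₀ β)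
    (hFA : F ⊆ A) (hβ : 0 < β) {B : Tor d M} {ℓ R : ℕ} (hℓ : 0 < ℓ) (hℓR : 2 * R = ℓ)
    (hFB : ∀ x ∈ F, sd x B ≤ ℓ) {r0 : ℝ} (hr0 : 0 ≤ r0) (hr8 : 8 * r0 ≤ ℓ)
    (hβℓ : 704 * d ≤ β * ℓ) (hφ : ∀ y, ∃ x ∈ F, 1 / 2 * (sd x y : ℝ) - r0 ≤ φ y)
    (hφ1 : ∀ e : Bd d M, |φ (tT e) - φ (sT e)| ≤ 1)
    {w w' εl εu : Tor d M → ℝ} {bl bu : Bd d M → ℝ} {e1 m nn u u0 Dl Du wm : ℝ}
    (h : Fm sT tT A w εl εu bl bu (qd (EE (Gr H κ) κ A)))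
    (hτ0 : ∀ x, 0 ≤ τ x) (hτs : ∀ x, τ x ≤ τs) (hτF : ∀ x, x ∉ F → τ x = 0)
    (hw : ∀ x ∈ A, 0 < w x) (hw' : ∀ x ∈ A, 0 < w' x ∧ w' x ≤ w x)
    (hwm : 0 < wm) (hwm' : ∀ x ∈ A, wm ≤ w' x)
    (h0 : ∀ x ∈ A, 0 ≤ εl x ∧ εl x ≤ 1 / 4)
    (h0u : ∀ x ∈ A, 0 ≤ εu x ∧ εu x ≤ (1 + u0) / 2) (hu0 : 0 ≤ u0 ∧ u0 < 1)
    (hτ : ∀ x ∈ A, τ x = 1 / w' x - 1 / w x)
    (hDl : 0 < Dl) (hDu : Dl ≤ Du)
    (hb : ∀ e, Dl / 2 ≤ bl e ∧ Du ≤ bu e ∧ bu e ≤ 2 * Du)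
    (he1 : 0 ≤ e1) (hm : 0 ≤ m)
    (hfrm : ∀ E1 : Matrix (Tor d M) (Tor d M) ℝ, Lad (EE (Gr H κ) κ A) E1 τ →
      ∀ f : Tor d M → ℝ, (∀ x, ¬ (x ∈ A ∧ sd x B ≤ 2 * ℓ) → f x = 0) →
        |qd (EE (Gr H' κ') κ' A) f - qd E1 f| ≤ e1 * qd E1 f)
    (n1 : TN' d β r0 τs ℓ F.card ≤ m * wm) (n2 : TE' d β r0 τs ℓ F.card ≤ m * (Dl / 2))
    (n3 : TN' d β r0 τs ℓ F.card ≤ nn / 8 * wm) (n4 : TE' d β r0 τs ℓ F.card ≤ nn / 2 * Dl)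
    (n5 : (2 + 400 * (d : ℝ) ^ 2) * (e1 + 2 * m) * (2 / (1 - u0)) ≤ u)
    (n6 : u ≤ nn / 8) (n7 : u * (2 * Du) ≤ nn / 2 * Dl) (n8 : 32 * nn ≤ 1 - u0) :
    Fm sT tT A w' (fun x => εl x * (w' x / w x) + nn * omB ℓ B x)
      (fun x => εu x * (w' x / w x) + nn * omB ℓ B x)
      (fun e => bl e - Dl * (nn * omB ℓ B (sT e)))
      (fun e => bu e + Du * (nn * omB ℓ B (sT e))) (qd (EE (Gr H' κ') κ' A)) := by
  have hsG : ∀ x y, Gr H κ x y = Gr H κ y x := (hGeq _ H κ hU.n).2.1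
  have hκ : ∀ x, 0 ≤ κ x := fun x => (hU.n.pos x).le
  obtain ⟨-, hL⟩ := lad_exists (issymm (ee_symm hsG κ A)) (ee_psd hsG hκ A) hτ0
  have hu1 : 0 < 1 - u0 := by linarith [hu0.2]
  have hu : 0 ≤ u := by
    refine le_trans ?_ n5
    have : 0 ≤ e1 + 2 * m := by linarith
    positivity
  have hnn : 0 ≤ nn := by linarith
  have herr := inc_err hd hU hFA hβ hℓ hℓR hFB hr0 hr8 hβℓ hφ hφ1 h hL hτs hτF hw hw' hwm hwm'
    h0 h0u hu0 hτ hDl (hDl.trans_le hDu) hb he1 hm (hfrm _ hL) n1 n2 n3 n4 n5 n6 n7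
  have hom : ∀ x, nn * omB ℓ B x ≤ (1 - u0) / 4 := fun x => by
    have h1 := omB_le ℓ B x
    have h2 := mul_le_mul_of_nonneg_left h1 hnn
    linarith
  have hbk := fm_blk (v := fun x => nn / 4 * omB ℓ B x)
    (dl := fun e => nn / 4 * (4 * Dl) * omB ℓ B (sT e)) (Q' := qd (EE (Gr H' κ') κ' A)) h hL hw hw'
    (fun x hx => (h0 x hx).1) (fun x hx => (h0 x hx).2) (fun x hx => (h0u x hx).1)
    (fun x hx => by
      have h1 := hom x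
      have h2 := (h0u x hx).2
      linarith) hτ
    (fun x _ => by
      have := (omB_pos ℓ B x).le
      positivity)
    (fun x _ => by
      have h1 := hom x
      have h2 := hu0.1
      linarith) herr
  have hr : ∀ x ∈ A, 0 ≤ w' x / w x ∧ w' x / w x ≤ 1 := fun x hx =>
    ⟨div_nonneg (hw' x hx).1.le (hw x hx).le, (div_le_one (hw x hx)).2 (hw' x hx).2⟩
  refine hbk.mono (fun x hx => (hw' x hx).1.le) (fun x hx => ?_) (fun x _ => le_of_eq (by ring))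
    (fun x _ => le_of_eq (by ring)) (fun x hx => ?_) (fun e => le_of_eq (by ring)) (fun e => ?_)
  · have h1 := (omB_pos ℓ B x).le
    have h2 := mul_nonneg (h0 x hx).1 (hr x hx).1
    have h3 : 0 ≤ 4 * (nn / 4 * omB ℓ B x) := by positivity
    linarith
  · have h1 := hom x
    have h2 := mul_le_of_le_one_right (h0u x hx).1 (hr x hx).2
    have h3 := (h0u x hx).2
    linarith
  · have h1 := (omB_pos ℓ B (sT e)).le
    have h2 : Dl * (nn * omB ℓ B (sT e)) ≤ Du * (nn * omB ℓ B (sT e)) :=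
      mul_le_mul_of_nonneg_right hDu (by positivity)
    linarith

end Pool.Agent.LTG.Inc
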