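import Pool.Agent.LTG.Defs

/-!
# The Poincaré inequality on boxes of the torus
-/

set_option autoImplicit false

open scoped BigOperators
open Finset

namespace Pool.Agent.LTG

/-- one dimension: two values differ by at most the energy of the line -/
lemma line (g : ℕ → ℝ) (L p q : ℕ) (hp : p < L) (hq : q < L) :
    (g p - g q) ^ 2 ≤ L * ∑ r : Fin L, if (r : ℕ) + 1 < L then (g (r + 1) - g r) ^ 2 else 0 := by
  wlog h : q ≤ p generalizing p q with H
  · have := H q p hq hp (by omega)
    have e : (g p - g q) ^ 2 = (g q - g p) ^ 2 := by ring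
    rw [e]; exact this
  have h1 : g p - g q = ∑ r ∈ Ico q p, (g (r + 1) - g r) := by
    rw [Finset.sum_Ico_eq_sub _ h, Finset.sum_range_sub, Finset.sum_range_sub]; ring
  rw [h1]
  have h2 : (∑ r ∈ Ico q p, (g (r + 1) - g r)) ^ 2 ≤ (Ico q p).card *
      ∑ r ∈ Ico q p, (g (r + 1) - g r) ^ 2 := sq_sum_le_card_mul_sum_sq
  have h3 : ∑ r ∈ Ico q p, (g (r + 1) - g r) ^ 2 ≤
      ∑ r : Fin L, if (r : ℕ) + 1 < L then (g (r + 1) - g r) ^ 2 else 0 := by
    rw [Fin.sum_univ_eq_sum_range (fun r => if r + 1 < L then (g (r + 1) - g r) ^ 2 else 0) L]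
    rw [← Finset.sum_filter]
    apply Finset.sum_le_sum_of_subset_of_nonneg
    · intro r hr
      rw [Finset.mem_Ico] at hr
      rw [Finset.mem_filter, Finset.mem_range]
      omega
    · intro r _ _
      positivity
  have h4 : ((Ico q p).card : ℝ) ≤ L := by
    rw [Nat.card_Ico]
    exact_mod_cast (by omega : p - q ≤ L)
  have h5 : 0 ≤ ∑ r ∈ Ico q p, (g (r + 1) - g r) ^ 2 := Finset.sum_nonneg fun _ _ => by positivity
  calc (∑ r ∈ Ico q p, (g (r + 1) - g r)) ^ 2
      ≤ (Ico q p).card * ∑ r ∈ Ico q p, (g (r + 1) - g r) ^ 2 := h2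
    _ ≤ L * ∑ r ∈ Ico q p, (g (r + 1) - g r) ^ 2 := by gcongr
    _ ≤ _ := by gcongr

variable {d L : ℕ}

/-- replacing one coordinate by a free one -/
lemma sum_upd (i : Fin d) (φ : (Fin d → Fin L) → ℝ) :
    ∑ u, ∑ r : Fin L, φ (Function.update u i r) = L * ∑ u, φ u := by
  let τ : (Fin d → Fin L) × Fin L → (Fin d → Fin L) × Fin L := fun p =>
    (Function.update p.1 i p.2, p.1 i)
  have hτ : Function.Involutive τ := by
    intro p
    simp [τ]
  have h1 : ∑ p : (Fin d → Fin L) × Fin L, φ ((τ p).1) =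
      ∑ p : (Fin d → Fin L) × Fin L, φ p.1 :=
    Equiv.sum_comp hτ.toPerm (fun p : (Fin d → Fin L) × Fin L => φ p.1)
  rw [Fintype.sum_prod_type, Fintype.sum_prod_type] at h1
  simp only [τ, Finset.sum_const, Finset.card_univ, Fintype.card_fin, nsmul_eq_mul] at h1
  rw [h1, Finset.mul_sum]

/-- the first `k` coordinates of `v`, the others of `u` -/
def mix (k : ℕ) (u v : Fin d → Fin L) : Fin d → Fin L := fun i => if (i : ℕ) < k then v i else u i

lemma mix_zero (u v : Fin d → Fin L) : mix 0 u v = u := by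
  funext i; simp [mix]

lemma mix_last (u v : Fin d → Fin L) : mix d u v = v := by
  funext i; simp [mix]

lemma mix_succ (k : Fin d) (u v : Fin d → Fin L) :
    mix ((k : ℕ) + 1) u v = Function.update (mix k u v) k ((mix k v u) k) := by
  funext i
  by_cases h : i = k
  · subst h; simp [mix]
  · have h' : (i : ℕ) ≠ k := fun e => h (Fin.ext e)
    rw [Function.update_of_ne h]
    simp only [mix]
    by_cases h2 : (i : ℕ) < k
    · rw [if_pos (by omega), if_pos h2]
    · rw [if_neg (by omega), if_neg h2]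

lemma sum_mix (k : ℕ) (Φ : (Fin d → Fin L) → (Fin d → Fin L) → ℝ) :
    ∑ u, ∑ v, Φ (mix k u v) (mix k v u) = ∑ u, ∑ v, Φ u v := by
  let τ : (Fin d → Fin L) × (Fin d → Fin L) → (Fin d → Fin L) × (Fin d → Fin L) := fun p =>
    (mix k p.1 p.2, mix k p.2 p.1)
  have hτ : Function.Involutive τ := by
    intro p
    apply Prod.ext
    · funext i
      simp only [τ, mix]
      split <;> rfl
    · funext i
      simp only [τ, mix]
      split <;> rfl
  have h1 : ∑ p : (Fin d → Fin L) × (Fin d → Fin L), Φ (τ p).1 (τ p).2 =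
      ∑ p : (Fin d → Fin L) × (Fin d → Fin L), Φ p.1 p.2 :=
    Equiv.sum_comp hτ.toPerm (fun p : (Fin d → Fin L) × (Fin d → Fin L) => Φ p.1 p.2)
  rw [Fintype.sum_prod_type, Fintype.sum_prod_type] at h1
  exact h1

/-- the coordinates as natural numbers -/
def co (u : Fin d → Fin L) : Fin d → ℕ := fun i => (u i : ℕ)

/-- the energy of the direction `k` in the cube -/
noncomputable def enk (L : ℕ) (F : (Fin d → ℕ) → ℝ) (k : Fin d) : ℝ :=
  ∑ u : Fin d → Fin L, if (u k : ℕ) + 1 < L then (F (co u + Pi.single k 1) - F (co u)) ^ 2 else 0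

lemma co_upd (u : Fin d → Fin L) (k : Fin d) (r : Fin L) :
    co (Function.update u k r) = Function.update (co u) k (r : ℕ) := by
  funext i
  by_cases h : i = k
  · subst h; simp [co]
  · simp [co, Function.update_of_ne h]

/-- the energy of a line of the cube, summed over the lines -/
lemma sum_line (F : (Fin d → ℕ) → ℝ) (k : Fin d) :
    ∑ w : Fin d → Fin L, ∑ q : Fin L, (if (q : ℕ) + 1 < L then
      (F (Function.update (co w) k ((q : ℕ) + 1)) - F (Function.update (co w) k (q : ℕ))) ^ 2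
        else 0) = L * enk L F k := by
  rw [enk, ← sum_upd k]
  refine Finset.sum_congr rfl fun w _ => Finset.sum_congr rfl fun q _ => ?_
  rw [Function.update_self]
  have e : co (Function.update w k q) + Pi.single k 1 =
      Function.update (co w) k ((q : ℕ) + 1) := by
    rw [co_upd]
    funext i
    by_cases h : i = k
    · subst h; simp
    · simp [Function.update_of_ne h, Pi.single_eq_of_ne h]
  rw [e, co_upd]

lemma step_le (F : (Fin d → ℕ) → ℝ) (k : Fin d) :
    ∑ u : Fin d → Fin L, ∑ v : Fin d → Fin L,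
      (F (co (mix k u v)) - F (co (mix ((k : ℕ) + 1) u v))) ^ 2 ≤
      (L : ℝ) ^ (d + 2) * enk L F k := by
  have h1 : ∑ u : Fin d → Fin L, ∑ v : Fin d → Fin L,
      (F (co (mix k u v)) - F (co (mix ((k : ℕ) + 1) u v))) ^ 2 =
      ∑ w : Fin d → Fin L, ∑ w' : Fin d → Fin L,
        (F (co w) - F (co (Function.update w k (w' k)))) ^ 2 := by
    rw [← sum_mix (k : ℕ) (fun w w' => (F (co w) - F (co (Function.update w k (w' k)))) ^ 2)]
    refine Finset.sum_congr rfl fun u _ => Finset.sum_congr rfl fun v _ => ?_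
    rw [mix_succ]
  rw [h1]
  have h2 : ∀ w w' : Fin d → Fin L, (F (co w) - F (co (Function.update w k (w' k)))) ^ 2 ≤
      L * ∑ q : Fin L, (if (q : ℕ) + 1 < L then
      (F (Function.update (co w) k ((q : ℕ) + 1)) - F (Function.update (co w) k (q : ℕ))) ^ 2
        else 0) := by
    intro w w'
    have := line (fun q => F (Function.update (co w) k q)) L (w k) (w' k) (w k).2 (w' k).2
    have e : Function.update (co w) k (w k : ℕ) = co w := by
      have : (w k : ℕ) = co w k := rfl
      rw [this, Function.update_eq_self]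
    rw [co_upd]
    simp only [e] at this
    exact this
  calc ∑ w : Fin d → Fin L, ∑ w' : Fin d → Fin L,
        (F (co w) - F (co (Function.update w k (w' k)))) ^ 2
      ≤ ∑ w : Fin d → Fin L, ∑ _w' : Fin d → Fin L, (L * ∑ q : Fin L, (if (q : ℕ) + 1 < L then
      (F (Function.update (co w) k ((q : ℕ) + 1)) - F (Function.update (co w) k (q : ℕ))) ^ 2
        else 0)) := Finset.sum_le_sum fun w _ => Finset.sum_le_sum fun w' _ => h2 w w'
    _ = (L : ℝ) ^ d * L * ∑ w : Fin d → Fin L, ∑ q : Fin L, (if (q : ℕ) + 1 < L then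
      (F (Function.update (co w) k ((q : ℕ) + 1)) - F (Function.update (co w) k (q : ℕ))) ^ 2
        else 0) := by
        simp only [Finset.sum_const, Finset.card_univ, Fintype.card_fun, Fintype.card_fin,
          nsmul_eq_mul]
        rw [← Finset.mul_sum, ← Finset.mul_sum]
        push_cast
        ring
    _ = (L : ℝ) ^ (d + 2) * enk L F k := by
        rw [sum_line]; ring

/-- pairs of sites of the cube -/
lemma pairs_le (F : (Fin d → ℕ) → ℝ) :
    ∑ u : Fin d → Fin L, ∑ v : Fin d → Fin L, (F (co u) - F (co v)) ^ 2 ≤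
      d * (L : ℝ) ^ (d + 2) * ∑ k, enk L F k := by
  have h1 : ∀ u v : Fin d → Fin L, (F (co u) - F (co v)) ^ 2 ≤
      d * ∑ k : Fin d, (F (co (mix k u v)) - F (co (mix ((k : ℕ) + 1) u v))) ^ 2 := by
    intro u v
    have h : F (co u) - F (co v) =
        ∑ k : Fin d, (F (co (mix k u v)) - F (co (mix ((k : ℕ) + 1) u v))) := by
      rw [Fin.sum_univ_eq_sum_range (fun k => F (co (mix k u v)) - F (co (mix (k + 1) u v))) d,
        Finset.sum_range_sub', mix_zero, mix_last]
    rw [h]
    have := @sq_sum_le_card_mul_sum_sq (Fin d) ℝ _ _ _ _ Finset.univ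
      (fun k : Fin d => F (co (mix k u v)) - F (co (mix ((k : ℕ) + 1) u v)))
    simpa using this
  calc ∑ u : Fin d → Fin L, ∑ v : Fin d → Fin L, (F (co u) - F (co v)) ^ 2
      ≤ ∑ u : Fin d → Fin L, ∑ v : Fin d → Fin L,
        (d * ∑ k : Fin d, (F (co (mix k u v)) - F (co (mix ((k : ℕ) + 1) u v))) ^ 2) :=
        Finset.sum_le_sum fun u _ => Finset.sum_le_sum fun v _ => h1 u v
    _ = d * ∑ k : Fin d, ∑ u : Fin d → Fin L, ∑ v : Fin d → Fin L,
        (F (co (mix k u v)) - F (co (mix ((k : ℕ) + 1) u v))) ^ 2 := by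
        simp only [← Finset.mul_sum]
        rw [Finset.sum_congr rfl fun u _ => Finset.sum_comm, Finset.sum_comm]
    _ ≤ d * ∑ k : Fin d, (L : ℝ) ^ (d + 2) * enk L F k :=
        mul_le_mul_of_nonneg_left (Finset.sum_le_sum fun k _ => step_le F k) (Nat.cast_nonneg d)
    _ = _ := by rw [← Finset.mul_sum]; ring

/-- deviation from the mean by the pairs -/
lemma mean_le {V : Type*} [Fintype V] (F : V → ℝ) (hV : 0 < Fintype.card V) :
    ∑ u, (F u - (∑ v, F v) / Fintype.card V) ^ 2 ≤
      (∑ u, ∑ v, (F u - F v) ^ 2) / Fintype.card V := by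
  have hc : (0 : ℝ) < Fintype.card V := by exact_mod_cast hV
  have hr : (∑ u, ∑ v, (F u - F v) ^ 2) / (Fintype.card V : ℝ) =
      ∑ u, (∑ v, (F u - F v) ^ 2) / (Fintype.card V : ℝ) := Finset.sum_div _ _ _
  rw [hr]
  refine Finset.sum_le_sum fun u _ => ?_
  have e : F u - (∑ v, F v) / Fintype.card V = (∑ v, (F u - F v)) / Fintype.card V := by
    rw [Finset.sum_sub_distrib, Finset.sum_const, Finset.card_univ, nsmul_eq_mul]
    field_simp
  rw [e, div_pow, div_le_div_iff₀ (by positivity) hc]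
  have := @sq_sum_le_card_mul_sum_sq V ℝ _ _ _ _ Finset.univ (fun v => F u - F v)
  rw [Finset.card_univ] at this
  nlinarith [this, hc]

/-- the Poincaré inequality on the cube -/
theorem cube_poi (F : (Fin d → ℕ) → ℝ) (hL : 0 < L) :
    ∑ u : Fin d → Fin L, (F (co u) - (∑ v : Fin d → Fin L, F (co v)) / (L : ℝ) ^ d) ^ 2 ≤
      d * (L : ℝ) ^ 2 * ∑ k, enk L F k := by
  have hcard : Fintype.card (Fin d → Fin L) = L ^ d := by simp
  have h := mean_le (fun u : Fin d → Fin L => F (co u)) (by rw [hcard]; positivity)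
  rw [hcard] at h
  push_cast at h
  have hLr : (0 : ℝ) < (L : ℝ) ^ d := by positivity
  have h2 := pairs_le (d := d) (L := L) F
  refine h.trans ?_
  rw [div_le_iff₀ hLr]
  calc _ ≤ _ := h2
    _ = _ := by ring

end Pool.Agent.LTG
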