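import Pool.Agent.LTG.Defs

/-!
# The change of a conservative form: local part and tail
-/

set_option autoImplicit false

open scoped BigOperators
open Finset

noncomputable section

namespace Pool.Agent.LTG

variable {X : Type*} [Fintype X]

/-- a symmetric matrix with zero row sums in terms of differences -/
theorem qd_cons (Δ : Matrix X X ℝ) (hs : ∀ x y, Δ x y = Δ y x) (h1 : ∀ x, ∑ y, Δ x y = 0)
    (f : X → ℝ) : qd Δ f = -(1 / 2) * ∑ x, ∑ y, Δ x y * (f x - f y) ^ 2 := by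
  have e1 : ∑ x, ∑ y, Δ x y * (f x - f y) ^ 2 =
      ∑ x, ∑ y, Δ x y * f x ^ 2 + ∑ x, ∑ y, Δ x y * f y ^ 2 -
        2 * ∑ x, ∑ y, f x * (Δ x y * f y) := by
    rw [Finset.mul_sum, ← Finset.sum_add_distrib, ← Finset.sum_sub_distrib]
    refine Finset.sum_congr rfl fun x _ => ?_
    rw [Finset.mul_sum, ← Finset.sum_add_distrib, ← Finset.sum_sub_distrib]
    refine Finset.sum_congr rfl fun y _ => ?_
    ring
  have e2 : ∑ x, ∑ y, Δ x y * f x ^ 2 = 0 := by
    refine Finset.sum_eq_zero fun x _ => ?_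
    rw [← Finset.sum_mul, h1, zero_mul]
  have e3 : ∑ x, ∑ y, Δ x y * f y ^ 2 = 0 := by
    rw [Finset.sum_comm]
    refine Finset.sum_eq_zero fun x _ => ?_
    rw [← Finset.sum_mul]
    have : ∑ i, Δ i x = ∑ i, Δ x i := Finset.sum_congr rfl fun i _ => hs i x
    rw [this, h1, zero_mul]
  have e4 : qd Δ f = ∑ x, ∑ y, f x * (Δ x y * f y) := by
    unfold qd Matrix.mulVec dotProduct
    refine Finset.sum_congr rfl fun x _ => ?_
    rw [Finset.mul_sum]
  rw [e1, e2, e3, e4]
  ring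

/-- the local part: conductances between two sites of `B` -/
def lc (B : X → Prop) [DecidablePred B] (Δ : Matrix X X ℝ) (f : X → ℝ) : ℝ :=
  -(1 / 2) * ∑ x, ∑ y, if B x ∧ B y then Δ x y * (f x - f y) ^ 2 else 0

/-- the tail: the other conductances -/
def tlf (B : X → Prop) [DecidablePred B] (Δ : Matrix X X ℝ) (f : X → ℝ) : ℝ :=
  -(1 / 2) * ∑ x, ∑ y, if B x ∧ B y then 0 else Δ x y * (f x - f y) ^ 2

theorem lc_add_tlf (B : X → Prop) [DecidablePred B] (Δ : Matrix X X ℝ)
    (hs : ∀ x y, Δ x y = Δ y x) (h1 : ∀ x, ∑ y, Δ x y = 0) (f : X → ℝ) :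
    qd Δ f = lc B Δ f + tlf B Δ f := by
  rw [qd_cons Δ hs h1 f]
  unfold lc tlf
  rw [← mul_add, ← Finset.sum_add_distrib]
  congr 1
  refine Finset.sum_congr rfl fun x _ => ?_
  rw [← Finset.sum_add_distrib]
  refine Finset.sum_congr rfl fun y _ => ?_
  split <;> simp

/-- the local part is local -/
theorem lc_loc (B : X → Prop) [DecidablePred B] (Δ : Matrix X X ℝ) (f g : X → ℝ) (c : ℝ)
    (h : ∀ x, B x → f x - g x = c) : lc B Δ f = lc B Δ g := by
  unfold lc
  congr 1
  refine Finset.sum_congr rfl fun x _ => Finset.sum_congr rfl fun y _ => ?_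
  by_cases hB : B x ∧ B y
  · rw [if_pos hB, if_pos hB]
    have a1 := h x hB.1
    have a2 := h y hB.2
    have : f x - f y = g x - g y := by linarith
    rw [this]
  · rw [if_neg hB, if_neg hB]

/-- bound of the tail -/
theorem tlf_le (B : X → Prop) [DecidablePred B] (Δ : Matrix X X ℝ) (f : X → ℝ) :
    |tlf B Δ f| ≤ ∑ x, ∑ y, (if B x ∧ B y then 0 else |Δ x y| / 2) * (f x - f y) ^ 2 := by
  unfold tlf
  rw [abs_mul]
  have e : |(-(1 / 2) : ℝ)| = 1 / 2 := by norm_num
  rw [e]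
  have h1 : |∑ x, ∑ y, if B x ∧ B y then 0 else Δ x y * (f x - f y) ^ 2| ≤
      ∑ x, ∑ y, |if B x ∧ B y then 0 else Δ x y * (f x - f y) ^ 2| :=
    (Finset.abs_sum_le_sum_abs _ _).trans
      (Finset.sum_le_sum fun x _ => Finset.abs_sum_le_sum_abs _ _)
  refine (mul_le_mul_of_nonneg_left h1 (by norm_num)).trans (le_of_eq ?_)
  rw [Finset.mul_sum]
  refine Finset.sum_congr rfl fun x _ => ?_
  rw [Finset.mul_sum]
  refine Finset.sum_congr rfl fun y _ => ?_
  split
  · simp
  · rw [abs_mul, abs_of_nonneg (sq_nonneg (f x - f y))]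
    ring

/-- if the matrix vanishes outside of the nodes `A`, the local part sees only the nodes -/
theorem lc_nodes (B : X → Prop) [DecidablePred B] (Δ : Matrix X X ℝ) (A : Finset X)
    (hA : ∀ x y, ¬ (x ∈ A ∧ y ∈ A) → Δ x y = 0) (f g : X → ℝ) (c : ℝ)
    (h : ∀ x ∈ A, B x → f x - g x = c) : lc B Δ f = lc B Δ g := by
  unfold lc
  congr 1
  refine Finset.sum_congr rfl fun x _ => Finset.sum_congr rfl fun y _ => ?_
  by_cases hB : B x ∧ B y
  · rw [if_pos hB, if_pos hB]
    by_cases hxy : x ∈ A ∧ y ∈ A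
    · have a1 := h x hxy.1 hB.1
      have a2 := h y hxy.2 hB.2
      have : f x - f y = g x - g y := by linarith
      rw [this]
    · rw [hA x y hxy]; ring
  · rw [if_neg hB, if_neg hB]

end Pool.Agent.LTG
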