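import Pool.Agent.Helper22_LTG.Box
import Pool.Agent.Helper22_LTG.Gen

/-!
# Local to global on the torus
-/

set_option autoImplicit false

open scoped BigOperators
open Finset

namespace Pool.Agent.LTG

variable {d M : ℕ} [NeZero M] {L R : ℕ}

/-- a box of the torus has all the data of `Cut` -/
theorem torCut (a : Tor d M) (hL : 0 < L) (hLM : L ≤ M) (hR : 0 < R) :
    Cut (X := Tor d M) (ep := Bd d M) sT tT (Core a L R) (Box a L) (d * (L : ℝ) ^ 2)
      (1 / (R : ℝ) ^ 2) d where
  poi := by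
    intro h
    obtain ⟨c, hc⟩ := poi a hL hLM h
    refine ⟨c, hc.trans (le_of_eq ?_)⟩
    congr 1
    unfold bon cutE
    refine Finset.sum_congr rfl fun e _ => ?_
    split <;> simp
  cut := by
    refine ⟨chi a L R, fun x => ⟨chi_nonneg a L R x, chi_le_one a L R x⟩,
      fun x hx => chi_core a hR x hx, fun x hx => ?_, fun e => ?_, fun e he => chi_out a e he⟩
    · by_contra hc
      exact hx fun i => by have := (chi_ne a x hc i).2; omega
    · have h := chi_lip a hLM (R := R) e.1 e.2
      have h2 : (chi a L R (tT e) - chi a L R (sT e)) ^ 2 ≤ (1 / (R : ℝ)) ^ 2 := by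
        rw [← sq_abs]
        exact pow_le_pow_left₀ (abs_nonneg _) h 2
      refine h2.trans (le_of_eq ?_)
      rw [div_pow, one_pow]
  deg := by
    intro φ hφ
    rw [Fintype.sum_prod_type]
    have : ∀ k : Fin d, ∑ x : Tor d M, (if Box a L (sT (k, x)) ∧ Box a L (tT (k, x)) then
        φ (sT (k, x)) else 0) ≤ ∑ x, (if Box a L x then φ x else 0) := by
      intro k
      refine Finset.sum_le_sum fun x _ => ?_
      simp only [sT]
      by_cases hx : Box a L x
      · rw [if_pos hx]
        split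
        · exact le_rfl
        · exact hφ x
      · rw [if_neg hx, if_neg (fun h => hx h.1)]
    refine (Finset.sum_le_sum fun k _ => this k).trans (le_of_eq ?_)
    rw [Finset.sum_const, Finset.card_univ, Fintype.card_fin, nsmul_eq_mul]

/-- (LTGT) local to global for one block of the torus -/
theorem ltgT (a : Tor d M) (hL : 0 < L) (hLM : L ≤ M) (hR : 0 < R) {al : Tor d M → ℝ}
    {be : Bd d M → ℝ} {b0 b1 : ℝ} (hb0 : 0 < b0) (hb1 : 0 ≤ b1) (ha : ∀ x, 0 ≤ al x)
    (hbe : ∀ e, Box a L (sT e) ∧ Box a L (tT e) → b0 ≤ be e ∧ be e ≤ b1)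
    {Q1 D : (Tor d M → ℝ) → ℝ} (hU : UB sT tT Q1 al be) {n : ℝ} (hn : 0 ≤ n)
    (hD : ∀ f : Tor d M → ℝ, (∀ x, ¬ Box a L x → f x = 0) → |D f| ≤ n * Q1 f)
    (hloc : ∀ f g : Tor d M → ℝ, ∀ c : ℝ, (∀ x, Core a L R x → f x - g x = c) → D f = D g)
    (f h : Tor d M → ℝ) :
    |D f| ≤ n * (2 + 2 * (d : ℝ) ^ 2 * ((L : ℝ) / R) ^ 2 * (b1 / b0)) *
      morB sT tT (Box a L) al be f h := by
  have h1 := ltg sT tT (torCut a hL hLM hR) (by positivity) (by positivity) (by positivity)
    hb0 hb1 ha hbe hU hn hD hloc f h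
  refine h1.trans (le_of_eq ?_)
  rw [div_pow]
  ring

/-- the box with side `M` is the whole torus -/
lemma box_all (a x : Tor d M) : Box a M x := fun i => off_lt a x i

/-- (LTGT, whole torus) for blocks which do not fit in a box smaller than the torus -/
theorem ltgT_all (a : Tor d M) {al : Tor d M → ℝ} {be : Bd d M → ℝ}
    {Q1 D : (Tor d M → ℝ) → ℝ} (hU : UB sT tT Q1 al be) {n : ℝ} (hn : 0 ≤ n)
    (hD : ∀ f, |D f| ≤ n * Q1 f) (f h : Tor d M → ℝ) :
    |D f| ≤ n * morB sT tT (Box a M) al be f h := by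
  have e : morB sT tT (Box a M) al be f h = mor sT tT al be f h := by
    unfold morB
    have e1 : cutX (Box a M) al = al := by
      funext x
      unfold cutX
      rw [if_pos (box_all a x)]
    have e2 : cutE sT tT (Box a M) be = be := by
      funext x
      unfold cutE
      rw [if_pos ⟨box_all a _, box_all a _⟩]
    rw [e1, e2]
  rw [e]
  exact ltg_all sT tT hU hn hD f h

end Pool.Agent.LTG
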